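import Mathlib

set_option autoImplicit false

/-!
# More than half of an interval
-/

namespace Pool.Agent.V11161.BG

open Finset

open Classical in
/-- from tuples to pairs -/
theorem pairs_of_tuples {β : Type} [DecidableEq β] (U : Finset β) (G : Finset β → Prop)
    (hG : ∀ F F' : Finset β, F' ⊆ F → G F → G F') (n k : ℕ) (hn : n = k + 2) (ε : ℝ)
    (h : (1 - ε) * (U.card : ℝ) ^ n ≤ (((Fintype.piFinset fun _ : Fin n => U).filter fun t =>
      Function.Injective t ∧ G (univ.image t)).card : ℝ)) :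
    (((U ×ˢ U).filter fun p => ¬ (p.1 ≠ p.2 ∧ G {p.1, p.2})).card : ℝ) ≤
      ε * (U.card : ℝ) ^ 2 := by
  subst hn
  rcases Nat.eq_zero_or_pos U.card with h0 | h0
  · rw [Finset.card_eq_zero] at h0
    subst h0
    simp
  have h0r : (0 : ℝ) < U.card := by exact_mod_cast h0
  set P := Fintype.piFinset fun _ : Fin (k + 2) => U with hP
  set BP := (U ×ˢ U).filter fun p => ¬ (p.1 ≠ p.2 ∧ G {p.1, p.2}) with hBP
  set Q : (Fin (k + 2) → β) → Prop := fun t => Function.Injective t ∧ G (univ.image t) with hQ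
  have hPc : (P.card : ℝ) = (U.card : ℝ) ^ (k + 2) := by
    rw [hP, Fintype.card_piFinset, prod_const, card_univ, Fintype.card_fin]
    push_cast
    rfl
  have hsum : ((P.filter Q).card : ℝ) + (P.filter fun t => ¬ Q t).card = (U.card : ℝ) ^ (k + 2) := by
    rw [← hPc]
    exact_mod_cast card_filter_add_card_filter_not Q
  have hinj : (BP ×ˢ (Fintype.piFinset fun _ : Fin k => U)).card ≤ (P.filter fun t => ¬ Q t).card := by
    refine card_le_card_of_injOn (fun q => (Fin.cons q.1.1 (Fin.cons q.1.2 q.2 : Fin (k + 1) → β) :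
      Fin (k + 2) → β)) ?_ ?_
    · rintro ⟨⟨x, y⟩, w⟩ hq
      rw [mem_coe, mem_product] at hq
      obtain ⟨h1, h2⟩ := hq
      rw [Fintype.mem_piFinset] at h2
      obtain ⟨h3, h4⟩ := mem_filter.1 h1
      obtain ⟨h5, h6⟩ := mem_product.1 h3
      simp only at h2 h4 h5 h6
      rw [mem_coe, mem_filter, hP, Fintype.mem_piFinset]
      refine ⟨fun i => ?_, fun hq => h4 ⟨?_, ?_⟩⟩
      · refine Fin.cases ?_ (fun j => ?_) i
        · exact h5
        · refine Fin.cases ?_ (fun l => ?_) j
          · exact h6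
          · exact h2 l
      · intro hxy
        have h7 : (0 : Fin (k + 2)) = 1 := hq.1 (by
          show x = y
          exact hxy)
        exact absurd h7 (by simp)
      · refine hG _ _ ?_ hq.2
        intro z hz
        rw [mem_insert, mem_singleton] at hz
        rcases hz with rfl | rfl
        · exact mem_image.2 ⟨0, mem_univ _, rfl⟩
        · exact mem_image.2 ⟨1, mem_univ _, rfl⟩
    · rintro ⟨⟨x, y⟩, w⟩ - ⟨⟨x', y'⟩, w'⟩ - hq
      simp only at hq
      obtain ⟨h1, h2⟩ := Fin.cons_injective2 hq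
      obtain ⟨h3, h4⟩ := Fin.cons_injective2 h2
      rw [h1, h3, h4]
  have hc : (BP.card : ℝ) * (U.card : ℝ) ^ k ≤ ε * (U.card : ℝ) ^ 2 * (U.card : ℝ) ^ k := by
    have h1 : ((BP ×ˢ (Fintype.piFinset fun _ : Fin k => U)).card : ℝ) =
        (BP.card : ℝ) * (U.card : ℝ) ^ k := by
      rw [card_product, Fintype.card_piFinset, prod_const, card_univ, Fintype.card_fin]
      push_cast
      rfl
    rw [← h1]
    have h2 : ((BP ×ˢ (Fintype.piFinset fun _ : Fin k => U)).card : ℝ) ≤
        (P.filter fun t => ¬ Q t).card := by exact_mod_cast hinj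
    refine h2.trans ?_
    have h3 : ε * (U.card : ℝ) ^ 2 * (U.card : ℝ) ^ k = ε * (U.card : ℝ) ^ (k + 2) := by
      rw [pow_add]; ring
    rw [h3]
    linarith
  exact le_of_mul_le_mul_right hc (by positivity)

open Classical in
theorem caseA (X L : ℕ) (hL : 100 * L ≤ X) (U : Finset ℕ) (hU : ∀ u ∈ U, u ≤ X)
    (hUc : 54 / 100 * ((X : ℝ) + 1) ≤ U.card) (g : ℕ → ℕ → Prop) (ε : ℝ)
    (hg : (((U ×ˢ U).filter fun p => ¬ g p.1 p.2).card : ℝ) ≤ ε * ((X : ℝ) + 1) ^ 2) :
    (L : ℝ) - ε * (100 / 7) * ((X : ℝ) + 1) ≤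
      (((Icc 1 L).filter fun h => ∃ x, g x (x + h)).card : ℝ) := by
  set S := (Icc 1 L).filter (fun h => ¬ ∃ x, g x (x + h)) with hS
  have hX0 : (0 : ℝ) < (X : ℝ) + 1 := by positivity
  have hsum : (((Icc 1 L).filter fun h => ∃ x, g x (x + h)).card : ℝ) + S.card = L := by
    have h1 := card_filter_add_card_filter_not (s := Icc 1 L) (fun h => ∃ x, g x (x + h))
    rw [Nat.card_Icc] at h1
    have h2 : L + 1 - 1 = L := by omega
    rw [h2] at h1
    exact_mod_cast h1
  have hlow : ∀ h ∈ S, 7 / 100 * ((X : ℝ) + 1) ≤ ((U.filter fun x => x + h ∈ U).card : ℝ) := by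
    intro h hh
    obtain ⟨h1, h2⟩ := mem_Icc.1 (mem_filter.1 hh).1
    set A := U.filter fun x => x + h ≤ X with hA
    have hAc : U.card ≤ A.card + h := by
      have h3 : U ⊆ A ∪ Ioc (X - h) X := by
        intro x hx
        rw [mem_union]
        by_cases h4 : x + h ≤ X
        · exact Or.inl (mem_filter.2 ⟨hx, h4⟩)
        · right
          rw [mem_Ioc]
          exact ⟨by omega, hU x hx⟩
      have h4 := (card_le_card h3).trans (card_union_le _ _)
      rw [Nat.card_Ioc] at h4
      omega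
    set A' := A.image (fun x => x + h) with hA'
    have hA'c : A'.card = A.card := card_image_of_injective _ (add_left_injective h)
    have hun : (A' ∪ U).card ≤ X + 1 := by
      have h3 : A' ∪ U ⊆ range (X + 1) := by
        intro x hx
        rw [mem_range]
        rcases mem_union.1 hx with h4 | h4
        · obtain ⟨y, hy, rfl⟩ := mem_image.1 h4
          have := (mem_filter.1 hy).2
          omega
        · have := hU x h4
          omega
      have h4 := card_le_card h3
      rwa [card_range] at h4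
    have hint : (A' ∩ U).card ≤ (U.filter fun x => x + h ∈ U).card := by
      have h3 : A' ∩ U ⊆ (U.filter fun x => x + h ∈ U).image fun x => x + h := by
        intro x hx
        obtain ⟨h4, h5⟩ := mem_inter.1 hx
        obtain ⟨y, hy, rfl⟩ := mem_image.1 h4
        exact mem_image.2 ⟨y, mem_filter.2 ⟨(mem_filter.1 hy).1, h5⟩, rfl⟩
      exact (card_le_card h3).trans card_image_le
    have h6 := card_union_add_card_inter A' U
    have h7 : 2 * U.card ≤ (U.filter fun x => x + h ∈ U).card + h + (X + 1) := by omega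
    have h8 : 2 * (U.card : ℝ) ≤ ((U.filter fun x => x + h ∈ U).card : ℝ) + h + (X + 1) := by
      exact_mod_cast h7
    have h9 : (h : ℝ) ≤ (X : ℝ) / 100 := by
      rw [le_div_iff₀ (by norm_num)]
      have : h * 100 ≤ X := by omega
      exact_mod_cast this
    linarith
  have hcount : ∑ h ∈ S, (U.filter fun x => x + h ∈ U).card ≤
      ((U ×ˢ U).filter fun p => ¬ g p.1 p.2).card := by
    rw [← card_sigma]
    refine card_le_card_of_injOn (fun q => (q.2, q.2 + q.1)) ?_ ?_
    · rintro ⟨h, x⟩ hq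
      rw [mem_coe, mem_sigma] at hq
      obtain ⟨h1, h2⟩ := hq
      simp only at h1 h2
      obtain ⟨h3, h4⟩ := mem_filter.1 h2
      rw [mem_coe, mem_filter, mem_product]
      refine ⟨⟨h3, h4⟩, fun h5 => (mem_filter.1 h1).2 ⟨x, h5⟩⟩
    · rintro ⟨h, x⟩ - ⟨h', x'⟩ - hq
      simp only [Prod.mk.injEq] at hq
      obtain ⟨h1, h2⟩ := hq
      subst h1
      have h3 : h = h' := Nat.add_left_cancel h2
      rw [h3]
  have hSc : (S.card : ℝ) * (7 / 100 * ((X : ℝ) + 1)) ≤ ε * ((X : ℝ) + 1) ^ 2 := by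
    refine le_trans ?_ hg
    have h1 : (∑ h ∈ S, ((U.filter fun x => x + h ∈ U).card : ℝ)) ≤
        (((U ×ˢ U).filter fun p => ¬ g p.1 p.2).card : ℝ) := by exact_mod_cast hcount
    refine le_trans ?_ h1
    rw [← nsmul_eq_mul]
    exact card_nsmul_le_sum _ _ _ hlow
  have hS2 : (S.card : ℝ) ≤ ε * (100 / 7) * ((X : ℝ) + 1) := by
    have h1 : (S.card : ℝ) * (7 / 100 * ((X : ℝ) + 1)) ≤
        (ε * (100 / 7) * ((X : ℝ) + 1)) * (7 / 100 * ((X : ℝ) + 1)) := by
      refine hSc.trans (le_of_eq ?_)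
      ring
    exact le_of_mul_le_mul_right h1 (by positivity)
  linarith

end Pool.Agent.V11161.BG
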