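import Mathlib
import Pool.Agent.V11161.BF.Key

set_option autoImplicit false

/-!
# The choice of the scale for two functions
-/

namespace Pool.Agent.V11161.BG

open Finset ComplexConjugate
open Pool.Agent.V11161.BF

open Classical in
/-- **the choice of the scale**, for a general energy -/
theorem scalesE (ρ σ κ : ℝ) (hρ : 0 < ρ) (hσ : 0 < σ) (hκ : 0 < κ) :
    ∃ (d : ℕ) (b : ℝ), 0 < b ∧ b ≤ 1 ∧
    ∀ (M : ℕ) [NeZero M] (e : ZMod M → ℝ), (∀ r, 0 ≤ e r) → ∑ r, e r ^ 2 ≤ (M : ℝ) ^ 2 →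
    ∃ (Γ Δ : Finset (ZMod M)) (b' : ℝ), b ≤ b' ∧ b' ≤ 1 ∧ Γ.card ≤ d ∧
      b' * M ≤ ((bohr Γ ρ).card : ℝ) ∧ ∑ r ∈ Δ, e r ^ 2 ≤ (κ * M) ^ 2 ∧ Disjoint Γ Δ ∧
      ∀ r, r ∉ Γ → r ∉ Δ → e r ≤ σ * b' * M := by
  obtain ⟨K, hK1, hK⟩ := bohr_card ρ hρ
  have hK0 : (0 : ℝ) < K := by exact_mod_cast hK1
  have hK1r : (1 : ℝ) ≤ K := by exact_mod_cast hK1
  set τ : ℕ → ℝ := tau σ K with hτ
  have hτ0 : ∀ i, 0 < τ i := tau_pos hσ hK1
  set dd : ℕ → ℕ := fun i => ⌈1 / (τ i) ^ 2⌉₊ with hdd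
  set I : ℕ := ⌈1 / κ ^ 2⌉₊ + 1 with hI
  set d : ℕ := ∑ i ∈ range I, dd i with hd
  refine ⟨d, 1 / (K : ℝ) ^ d, by positivity, ?_, ?_⟩
  · rw [div_le_one (by positivity)]
    exact one_le_pow₀ hK1r
  intro M _ e he0 htot
  have hM0 : (0 : ℝ) < M := by
    have := NeZero.pos M
    exact_mod_cast this
  set Γ : ℕ → Finset (ZMod M) := fun i => univ.filter fun r => τ i * M ≤ e r with hΓ
  have hΓsub : ∀ i, Γ i ⊆ Γ (i + 1) := by
    intro i r hr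
    rw [hΓ, mem_filter] at hr ⊢
    refine ⟨mem_univ _, le_trans ?_ hr.2⟩
    exact mul_le_mul_of_nonneg_right (tau_succ_le σ K i) hM0.le
  set E : ℕ → ℝ := fun i => ∑ r ∈ Γ i, e r ^ 2 with hE
  have hEle : ∀ i, E i ≤ (M : ℝ) ^ 2 := fun i =>
    (sum_le_sum_of_subset_of_nonneg (filter_subset _ _) fun _ _ _ => sq_nonneg _).trans htot
  have hE0 : ∀ i, 0 ≤ E i := fun i => sum_nonneg fun _ _ => sq_nonneg _
  have hmid : ∀ i, ∑ r ∈ Γ (i + 1) \ Γ i, e r ^ 2 = E (i + 1) - E i := by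
    intro i
    have := sum_sdiff (f := fun r => e r ^ 2) (hΓsub i)
    rw [hE]
    linarith
  have hex : ∃ i ∈ range I, ∑ r ∈ Γ (i + 1) \ Γ i, e r ^ 2 ≤ (κ * M) ^ 2 := by
    apply exists_le_of_sum_le (nonempty_range_iff.2 (by omega : I ≠ 0))
    simp only [hmid]
    rw [sum_range_sub, sum_const, card_range, nsmul_eq_mul]
    have h1 := hEle I
    have h2 := hE0 0
    have h3 : (1 : ℝ) ≤ I * κ ^ 2 := by
      have h4 : 1 / κ ^ 2 ≤ (I : ℝ) := by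
        rw [hI]
        push_cast
        have := Nat.le_ceil (1 / κ ^ 2)
        linarith
      rw [div_le_iff₀ (by positivity)] at h4
      exact h4
    have h5 : (M : ℝ) ^ 2 ≤ (I : ℝ) * (κ * M) ^ 2 := by
      rw [mul_pow, ← mul_assoc]
      exact le_mul_of_one_le_left (by positivity) h3
    linarith
  obtain ⟨i, hi, hiE⟩ := hex
  have hcard : (Γ i).card ≤ dd i := by
    have h1 : ((Γ i).card : ℝ) * (τ i * M) ^ 2 ≤ (M : ℝ) ^ 2 := by
      refine le_trans ?_ (hEle i)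
      rw [hE, ← nsmul_eq_mul]
      refine card_nsmul_le_sum _ _ _ fun r hr => ?_
      exact pow_le_pow_left₀ (mul_nonneg (hτ0 i).le hM0.le) (mem_filter.1 hr).2 2
    have h2 : ((Γ i).card : ℝ) ≤ 1 / (τ i) ^ 2 := by
      rw [le_div_iff₀ (pow_pos (hτ0 i) 2)]
      rw [mul_pow, ← mul_assoc] at h1
      have h3 : (0 : ℝ) < (M : ℝ) ^ 2 := by positivity
      nlinarith
    have h3 : ((Γ i).card : ℝ) ≤ (dd i : ℝ) := h2.trans (Nat.le_ceil _)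
    exact_mod_cast h3
  have hddd : dd i ≤ d := by
    rw [hd]
    exact single_le_sum (f := dd) (fun _ _ => Nat.zero_le _) hi
  refine ⟨Γ i, Γ (i + 1) \ Γ i, 1 / (K : ℝ) ^ (dd i), ?_, ?_, hcard.trans hddd, ?_, hiE,
    disjoint_sdiff, ?_⟩
  · apply one_div_le_one_div_of_le (by positivity)
    exact pow_le_pow_right₀ hK1r hddd
  · rw [div_le_one (by positivity)]
    exact one_le_pow₀ hK1r
  · refine le_trans ?_ (hK M (Γ i))
    rw [one_div, inv_mul_eq_div]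
    apply div_le_div_of_nonneg_left hM0.le (by positivity)
    exact pow_le_pow_right₀ hK1r hcard
  · intro r h1 h2
    have h3 : r ∉ Γ (i + 1) := fun h => h2 (mem_sdiff.2 ⟨h, h1⟩)
    have h4 : e r < τ (i + 1) * M := by
      by_contra hcon
      exact h3 (mem_filter.2 ⟨mem_univ _, not_lt.1 hcon⟩)
    refine h4.le.trans ?_
    exact mul_le_mul_of_nonneg_right (tau_succ_le' σ K i) hM0.le

/-- the same scale is good for two functions -/
theorem good_two (ρ : ℝ) (hρ : 0 < ρ) : ∃ (d : ℕ) (b : ℝ), 0 < b ∧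
    ∀ (M : ℕ) [NeZero M] (f g : ZMod M → ℝ), (∀ x, 0 ≤ f x) → (∀ x, f x ≤ 1) →
    (∀ x, 0 ≤ g x) → (∀ x, g x ≤ 1) →
    ∃ (Γ Δ : Finset (ZMod M)) (b' : ℝ), Γ.card ≤ d ∧ b * M ≤ ((bohr Γ ρ).card : ℝ) ∧
      Good f ρ ρ Γ Δ b' ∧ Good g ρ ρ Γ Δ b' := by
  obtain ⟨d, b, hb0, hb1, hsc⟩ := scalesE ρ (ρ / 2) (ρ / 2) hρ (by positivity) (by positivity)
  refine ⟨d, b, hb0, fun M _ f g hf0 hf1 hg0 hg1 => ?_⟩
  have hM := M_pos (M := M)
  set F : ZMod M → ℝ := fun r => ‖ft (fun x => (f x : ℂ)) r‖ with hF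
  set G : ZMod M → ℝ := fun r => ‖ft (fun x => (g x : ℂ)) r‖ with hG
  have hF0 : ∀ r, 0 ≤ F r := fun r => norm_nonneg _
  have hG0 : ∀ r, 0 ≤ G r := fun r => norm_nonneg _
  have hFs : ∑ r, F r ^ 2 ≤ (M : ℝ) ^ 2 := sum_sq_le f fun x => by
    rw [abs_of_nonneg (hf0 x)]; exact hf1 x
  have hGs : ∑ r, G r ^ 2 ≤ (M : ℝ) ^ 2 := sum_sq_le g fun x => by
    rw [abs_of_nonneg (hg0 x)]; exact hg1 x
  obtain ⟨Γ, Δ, b', h1, h2, h3, h4, h5, h6, h7⟩ := hsc M (fun r => (F r + G r) / 2)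
    (fun r => by have := hF0 r; have := hG0 r; positivity) (by
      calc ∑ r, ((F r + G r) / 2) ^ 2 ≤ ∑ r, (F r ^ 2 + G r ^ 2) / 2 := by
            refine sum_le_sum fun r _ => ?_
            nlinarith [sq_nonneg (F r - G r)]
        _ = (∑ r, F r ^ 2 + ∑ r, G r ^ 2) / 2 := by
            rw [← sum_add_distrib, sum_div]
        _ ≤ (M : ℝ) ^ 2 := by linarith)
  have hb' : 0 < b' := lt_of_lt_of_le hb0 h1
  have hΔF : ∑ r ∈ Δ, F r ^ 2 ≤ (ρ * M) ^ 2 := by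
    calc ∑ r ∈ Δ, F r ^ 2 ≤ ∑ r ∈ Δ, 4 * ((F r + G r) / 2) ^ 2 := by
          refine sum_le_sum fun r _ => ?_
          have := hF0 r
          have := hG0 r
          nlinarith
      _ ≤ 4 * (ρ / 2 * M) ^ 2 := by
          rw [← mul_sum]
          exact mul_le_mul_of_nonneg_left h5 (by norm_num)
      _ = _ := by ring
  have hΔG : ∑ r ∈ Δ, G r ^ 2 ≤ (ρ * M) ^ 2 := by
    calc ∑ r ∈ Δ, G r ^ 2 ≤ ∑ r ∈ Δ, 4 * ((F r + G r) / 2) ^ 2 := by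
          refine sum_le_sum fun r _ => ?_
          have := hF0 r
          have := hG0 r
          nlinarith
      _ ≤ 4 * (ρ / 2 * M) ^ 2 := by
          rw [← mul_sum]
          exact mul_le_mul_of_nonneg_left h5 (by norm_num)
      _ = _ := by ring
  refine ⟨Γ, Δ, b', h3, (mul_le_mul_of_nonneg_right h1 hM.le).trans h4,
    ⟨hf0, hf1, hρ, hρ, hb', h2, h4, hΔF, h6, ?_⟩, ⟨hg0, hg1, hρ, hρ, hb', h2, h4, hΔG, h6, ?_⟩⟩
  · intro r hr1 hr2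
    have h8 := h7 r hr1 hr2
    have h9 := hG0 r
    have e : ρ * b' * M = 2 * (ρ / 2 * b' * M) := by ring
    show F r ≤ ρ * b' * M
    rw [e]
    linarith
  · intro r hr1 hr2
    have h8 := h7 r hr1 hr2
    have h9 := hF0 r
    have e : ρ * b' * M = 2 * (ρ / 2 * b' * M) := by ring
    show G r ≤ ρ * b' * M
    rw [e]
    linarith

end Pool.Agent.V11161.BG
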