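import Mathlib
import Pool.Agent.V11161.BG.ScaleE
import Pool.Agent.V11161.BF.Count

set_option autoImplicit false

/-!
# The number of the configurations `x, x + u_1, …, x + u_k` in a set and
`x₀ + s - x, x₀ + s - x + t_1, …` in another one, for almost all `s, u, t` in a Bohr set
-/

namespace Pool.Agent.V11161.BG

open Finset
open Pool.Agent.V11161.BF

variable {M : ℕ} [NeZero M] {f g : ZMod M → ℝ} {ρ κ b : ℝ} {Γ Δ : Finset (ZMod M)}

/-- the number of configurations -/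
noncomputable def cf (f g : ZMod M → ℝ) (k : ℕ) (x₀ s : ZMod M) (u t : Fin k → ZMod M) : ℝ :=
  ∑ x, f x * (∏ i, f (x + u i)) * (g (x₀ + s - x) * ∏ j, g (x₀ + s - x + t j))

theorem pow_abs_le {a : ℝ} (ha : |a| ≤ 1) (k : ℕ) : |a ^ k| ≤ 1 := by
  rw [abs_pow]
  exact pow_le_one₀ (abs_nonneg _) ha

theorem prod_abs_le {ι : Type} (s : Finset ι) (F : ι → ℝ) (h : ∀ i ∈ s, |F i| ≤ 1) :
    |∏ i ∈ s, F i| ≤ 1 := by
  rw [abs_prod]
  exact prod_le_one (fun _ _ => abs_nonneg _) h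

theorem mul_abs_le {a c : ℝ} (ha : |a| ≤ 1) (hc : |c| ≤ 1) : |a * c| ≤ 1 := by
  rw [abs_mul]
  calc |a| * |c| ≤ 1 * 1 := mul_le_mul ha hc (abs_nonneg _) zero_le_one
    _ = 1 := one_mul 1

theorem two_sum (hf : Good f ρ κ Γ Δ b) (hg : Good g ρ κ Γ Δ b) (k : ℕ) (x₀ : ZMod M) :
    ∑ s ∈ bohr Γ ρ, ∑ t ∈ Fintype.piFinset (fun _ : Fin k => bohr Γ ρ),
      ∑ u ∈ Fintype.piFinset (fun _ : Fin k => bohr Γ ρ),
      |cf f g k x₀ s u t - ∑ x, sm (bohr Γ ρ) f x ^ (k + 1) *
        (g (x₀ - x) * sm (bohr Γ ρ) g (x₀ - x) ^ k)| ≤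
      (5 * k + 2) * (3 * ρ + 2 * κ) * ((bohr Γ ρ).card : ℝ) ^ (2 * k + 1) * M := by
  set B := bohr Γ ρ with hB
  set f' := sm B f with hf'
  set g' := sm B g with hg'
  set ξ := 3 * ρ + 2 * κ with hξ
  set P := Fintype.piFinset (fun _ : Fin k => B) with hP
  have hM := M_pos (M := M)
  have hPc : (P.card : ℝ) = (B.card : ℝ) ^ k := by
    rw [hP, Fintype.card_piFinset, prod_const, card_univ, Fintype.card_fin]
    push_cast
    rfl
  have hξ0 : 0 ≤ ξ := by
    have := hf.ρ0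
    have := hf.κ0
    rw [hξ]; linarith
  set R : ℝ := ∑ x, f' x ^ (k + 1) * (g (x₀ - x) * g' (x₀ - x) ^ k) with hR
  -- the intermediate quantities
  set A1 : ZMod M → (Fin k → ZMod M) → ℝ := fun s t =>
    ∑ x, f x * f' x ^ k * (g (x₀ + s - x) * ∏ j, g (x₀ + s - x + t j)) with hA1
  set A2 : ZMod M → ℝ := fun s =>
    ∑ x, f x * f' x ^ k * (g (x₀ + s - x) * g' (x₀ + s - x) ^ k) with hA2
  have hstep1 : ∀ (s : ZMod M) (t : Fin k → ZMod M),
      ∑ u ∈ P, |cf f g k x₀ s u t - A1 s t| ≤ 2 * k * ξ * (B.card : ℝ) ^ k * M := by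
    intro s t
    refine le_trans (le_of_eq ?_) (hf.kfold k
      (fun x => f x * (g (x₀ + s - x) * ∏ j, g (x₀ + s - x + t j))) fun x =>
        mul_abs_le (hf.abs_f x) (mul_abs_le (hg.abs_f _)
          (prod_abs_le _ _ fun j _ => hg.abs_f _)))
    refine sum_congr rfl fun u _ => ?_
    congr 1
    unfold cf
    rw [hA1, ← sum_sub_distrib]
    refine sum_congr rfl fun x _ => ?_
    ring
  have hstep2 : ∀ s : ZMod M,
      ∑ t ∈ P, |A1 s t - A2 s| ≤ 2 * k * ξ * (B.card : ℝ) ^ k * M := by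
    intro s
    refine le_trans (le_of_eq ?_) (hg.kfold k
      (fun y => g y * (f (x₀ + s - y) * f' (x₀ + s - y) ^ k)) fun y =>
        mul_abs_le (hg.abs_f y) (mul_abs_le (hf.abs_f _) (pow_abs_le (hf.sm_abs _) k)))
    refine sum_congr rfl fun t _ => ?_
    congr 1
    rw [hA1, hA2]
    simp only
    rw [← sum_sub_distrib]
    rw [← Equiv.sum_comp (Equiv.subLeft (x₀ + s))]
    refine sum_congr rfl fun x _ => ?_
    simp only [Equiv.subLeft_apply, sub_sub_cancel]
    ring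
  have hstep3 : ∑ s ∈ B, |A2 s - R| ≤ (k + 2) * ξ * (B.card : ℝ) * M := by
    set G : ZMod M → ℝ := fun x => g (x₀ - x) * g' (x₀ - x) ^ k with hG
    have hGb : ∀ x, |G x| ≤ 1 := fun x =>
      mul_abs_le (hg.abs_f _) (pow_abs_le (hg.sm_abs _) k)
    have e1 : ∀ s, A2 s = ∑ x, f (x + s) * f' (x + s) ^ k * G x := by
      intro s
      rw [hA2, hG]
      simp only
      rw [← Equiv.sum_comp (Equiv.addRight s)]
      refine sum_congr rfl fun x _ => ?_
      simp only [Equiv.coe_addRight]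
      have : x₀ + s - (x + s) = x₀ - x := by ring
      rw [this]
    have h1 : ∀ s ∈ B, |A2 s - R| ≤ k * (ξ * M) +
        |∑ x, (f (x + s) - f' (x + s)) * (f' x ^ k * G x)| + ξ * M := by
      intro s hs
      have e2 : A2 s - R = ∑ x, f (x + s) * (f' (x + s) ^ k - f' x ^ k) * G x +
          ∑ x, (f (x + s) - f' (x + s)) * (f' x ^ k * G x) +
          ∑ x, (f' (x + s) - f' x) * (f' x ^ k * G x) := by
        rw [e1, hR, ← sum_add_distrib, ← sum_add_distrib, ← sum_sub_distrib]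
        refine sum_congr rfl fun x _ => ?_
        rw [hG]
        simp only
        ring
      rw [e2]
      refine (abs_add_le _ _).trans (add_le_add ((abs_add_le _ _).trans
        (add_le_add ?_ le_rfl)) ?_)
      · calc |∑ x, f (x + s) * (f' (x + s) ^ k - f' x ^ k) * G x| ≤
              ∑ x, |f (x + s) * (f' (x + s) ^ k - f' x ^ k) * G x| := abs_sum_le_sum_abs _ _
          _ ≤ ∑ x, (k : ℝ) * |f' (x + s) - f' x| := by
              refine sum_le_sum fun x _ => ?_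
              rw [abs_mul, abs_mul]
              have h2 := abs_pow_sub k (f' (x + s)) (f' x) (hf.sm_abs _) (hf.sm_abs _)
              have h3 : |f (x + s)| * |f' (x + s) ^ k - f' x ^ k| ≤
                  1 * (k * |f' (x + s) - f' x|) :=
                mul_le_mul (hf.abs_f _) h2 (abs_nonneg _) zero_le_one
              calc |f (x + s)| * |f' (x + s) ^ k - f' x ^ k| * |G x| ≤
                    (1 * (k * |f' (x + s) - f' x|)) * 1 :=
                    mul_le_mul h3 (hGb x) (abs_nonneg _) (by positivity)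
                _ = _ := by ring
          _ ≤ k * (ξ * M) := by
              rw [← mul_sum]
              exact mul_le_mul_of_nonneg_left (hf.shift hs) (Nat.cast_nonneg _)
      · calc |∑ x, (f' (x + s) - f' x) * (f' x ^ k * G x)| ≤
              ∑ x, |(f' (x + s) - f' x) * (f' x ^ k * G x)| := abs_sum_le_sum_abs _ _
          _ ≤ ∑ x, |f' (x + s) - f' x| := by
              refine sum_le_sum fun x _ => ?_
              rw [abs_mul]
              exact mul_le_of_le_one_right (abs_nonneg _)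
                (mul_abs_le (pow_abs_le (hf.sm_abs _) k) (hGb x))
          _ ≤ ξ * M := hf.shift hs
    have h2 := hf.unif (fun x => f' x ^ k * G x) fun x =>
      mul_abs_le (pow_abs_le (hf.sm_abs _) k) (hGb x)
    calc ∑ s ∈ B, |A2 s - R| ≤ ∑ s ∈ B, (k * (ξ * M) +
          |∑ x, (f (x + s) - f' (x + s)) * (f' x ^ k * G x)| + ξ * M) := sum_le_sum h1
      _ = B.card * (k * (ξ * M)) +
          ∑ s ∈ B, |∑ x, (f (x + s) - f' (x + s)) * (f' x ^ k * G x)| + B.card * (ξ * M) := by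
          rw [sum_add_distrib, sum_add_distrib, sum_const, sum_const, nsmul_eq_mul, nsmul_eq_mul]
      _ ≤ B.card * (k * (ξ * M)) + ξ * B.card * M + B.card * (ξ * M) := by gcongr
      _ = _ := by ring
  calc ∑ s ∈ B, ∑ t ∈ P, ∑ u ∈ P, |cf f g k x₀ s u t - R| ≤
        ∑ s ∈ B, ∑ t ∈ P, ∑ u ∈ P, (|cf f g k x₀ s u t - A1 s t| + |A1 s t - A2 s| +
          |A2 s - R|) := by
        refine sum_le_sum fun s _ => sum_le_sum fun t _ => sum_le_sum fun u _ => ?_
        have := abs_sub_le (cf f g k x₀ s u t) (A1 s t) R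
        have := abs_sub_le (A1 s t) (A2 s) R
        linarith
    _ = ∑ s ∈ B, ∑ t ∈ P, (∑ u ∈ P, |cf f g k x₀ s u t - A1 s t| +
          (B.card : ℝ) ^ k * |A1 s t - A2 s| + (B.card : ℝ) ^ k * |A2 s - R|) := by
        refine sum_congr rfl fun s _ => sum_congr rfl fun t _ => ?_
        rw [sum_add_distrib, sum_add_distrib, sum_const, sum_const, nsmul_eq_mul, nsmul_eq_mul,
          hPc]
    _ ≤ ∑ s ∈ B, ∑ t ∈ P, (2 * k * ξ * (B.card : ℝ) ^ k * M +
          (B.card : ℝ) ^ k * |A1 s t - A2 s| + (B.card : ℝ) ^ k * |A2 s - R|) := by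
        refine sum_le_sum fun s _ => sum_le_sum fun t _ => ?_
        have := hstep1 s t
        linarith
    _ = ∑ s ∈ B, ((B.card : ℝ) ^ k * (2 * k * ξ * (B.card : ℝ) ^ k * M) +
          (B.card : ℝ) ^ k * ∑ t ∈ P, |A1 s t - A2 s| +
            (B.card : ℝ) ^ k * ((B.card : ℝ) ^ k * |A2 s - R|)) := by
        refine sum_congr rfl fun s _ => ?_
        rw [sum_add_distrib, sum_add_distrib, sum_const, sum_const, nsmul_eq_mul, nsmul_eq_mul,
          hPc, mul_sum]
    _ ≤ ∑ s ∈ B, ((B.card : ℝ) ^ k * (2 * k * ξ * (B.card : ℝ) ^ k * M) +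
          (B.card : ℝ) ^ k * (2 * k * ξ * (B.card : ℝ) ^ k * M) +
            (B.card : ℝ) ^ k * ((B.card : ℝ) ^ k * |A2 s - R|)) := by
        refine sum_le_sum fun s _ => ?_
        have h1 := mul_le_mul_of_nonneg_left (hstep2 s) (by positivity : (0 : ℝ) ≤ (B.card : ℝ) ^ k)
        linarith
    _ = B.card * ((B.card : ℝ) ^ k * (2 * k * ξ * (B.card : ℝ) ^ k * M) +
          (B.card : ℝ) ^ k * (2 * k * ξ * (B.card : ℝ) ^ k * M)) +
            (B.card : ℝ) ^ k * ((B.card : ℝ) ^ k * ∑ s ∈ B, |A2 s - R|) := by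
        rw [sum_add_distrib, sum_const, nsmul_eq_mul, mul_sum, mul_sum]
    _ ≤ B.card * ((B.card : ℝ) ^ k * (2 * k * ξ * (B.card : ℝ) ^ k * M) +
          (B.card : ℝ) ^ k * (2 * k * ξ * (B.card : ℝ) ^ k * M)) +
            (B.card : ℝ) ^ k * ((B.card : ℝ) ^ k * ((k + 2) * ξ * (B.card : ℝ) * M)) := by
        gcongr
    _ = _ := by
        have e : (B.card : ℝ) ^ (2 * k + 1) = (B.card : ℝ) ^ k * (B.card : ℝ) ^ k * B.card := by
          ring
        rw [e]
        ring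

open Classical in
/-- **the structure theorem for two sets** -/
theorem two_struct (k : ℕ) (α η : ℝ) (hα : 0 < α) (hη : 0 < η) :
    ∃ (d : ℕ) (ρ b c : ℝ), 0 < ρ ∧ 0 < b ∧ 0 < c ∧ ∀ (M : ℕ) [NeZero M] (U V : Finset (ZMod M)),
      α * M ≤ U.card → α * M ≤ V.card → ∃ (Γ : Finset (ZMod M)) (x₀ : ZMod M), Γ.card ≤ d ∧
        b * M ≤ ((bohr Γ ρ).card : ℝ) ∧
        (((bohr Γ ρ ×ˢ (Fintype.piFinset (fun _ : Fin k => bohr Γ ρ) ×ˢ
          Fintype.piFinset (fun _ : Fin k => bohr Γ ρ))).filter fun p =>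
            ((univ.filter fun x : ZMod M => (x ∈ U ∧ ∀ i, x + p.2.1 i ∈ U) ∧
              (x₀ + p.1 - x ∈ V ∧ ∀ j, x₀ + p.1 - x + p.2.2 j ∈ V)).card : ℝ) < c * M).card : ℝ) ≤
          η * ((bohr Γ ρ).card : ℝ) ^ (2 * k + 1) := by
  set A := α ^ (k + 1) with hA
  have hA0 : 0 < A := by positivity
  set c := A ^ 2 / 4 with hc
  have hc0 : 0 < c := by positivity
  set ρ : ℝ := min (A / (10 * (k + 1))) (η * c / (5 * (5 * k + 2))) with hρ
  have hk0 : (0 : ℝ) < k + 1 := by positivity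
  have hρ0 : 0 < ρ := lt_min (by positivity) (by positivity)
  obtain ⟨d, b, hb0, hsc⟩ := good_two ρ hρ0
  refine ⟨d, ρ, b, c, hρ0, hb0, hc0, fun M _ U V hU hV => ?_⟩
  have hM := M_pos (M := M)
  set f : ZMod M → ℝ := fun x => if x ∈ U then 1 else 0 with hf
  set g : ZMod M → ℝ := fun x => if x ∈ V then 1 else 0 with hg
  have hi0 : ∀ (S : Finset (ZMod M)) (x : ZMod M), (0 : ℝ) ≤ if x ∈ S then 1 else 0 := by
    intro S x
    split_ifs <;> norm_num
  have hi1 : ∀ (S : Finset (ZMod M)) (x : ZMod M), (if x ∈ S then (1 : ℝ) else 0) ≤ 1 := by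
    intro S x
    split_ifs <;> norm_num
  have his : ∀ S : Finset (ZMod M), ∑ x, (if x ∈ S then (1 : ℝ) else 0) = S.card := by
    intro S
    rw [← sum_filter, sum_const, nsmul_eq_mul, mul_one]
    congr 1
    congr 1
    ext x
    simp
  obtain ⟨Γ, Δ, b', h1, h2, hGf, hGg⟩ := hsc M f g (hi0 U) (hi1 U) (hi0 V) (hi1 V)
  have hρ1 : ρ * (10 * (k + 1)) ≤ A := by
    have := min_le_left (A / (10 * ((k : ℝ) + 1))) (η * c / (5 * (5 * k + 2)))
    rw [← hρ, le_div_iff₀ (by positivity)] at this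
    exact this
  have hρ2 : ρ * (5 * (5 * k + 2)) ≤ η * c := by
    have := min_le_right (A / (10 * ((k : ℝ) + 1))) (η * c / (5 * (5 * k + 2)))
    rw [← hρ, le_div_iff₀ (by positivity)] at this
    exact this
  set B := bohr Γ ρ with hB
  set f' := sm B f with hf'
  set g' := sm B g with hg'
  have hmf : A * M ≤ ∑ x, f' x ^ (k + 1) :=
    hGf.power_mean k hα.le (by rw [hf, his]; exact hU)
  have hmg : A * M ≤ ∑ x, g' x ^ (k + 1) :=
    hGg.power_mean k hα.le (by rw [hg, his]; exact hV)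
  have hmg2 := hGg.main_term k
  have hG : A / 2 * M ≤ ∑ x, g x * g' x ^ k := by
    have h3 : k * (3 * ρ + 2 * ρ) * M ≤ A / 2 * M := by
      apply mul_le_mul_of_nonneg_right _ hM.le
      nlinarith
    linarith
  -- the choice of the translate
  set R : ZMod M → ℝ := fun x₀ => ∑ x, f' x ^ (k + 1) * (g (x₀ - x) * g' (x₀ - x) ^ k) with hR
  have hRsum : ∑ x₀, R x₀ = (∑ x, f' x ^ (k + 1)) * ∑ x, g x * g' x ^ k := by
    rw [hR]
    simp only
    rw [sum_comm, sum_mul]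
    refine sum_congr rfl fun x _ => ?_
    rw [← mul_sum]
    congr 1
    exact Equiv.sum_comp (Equiv.subRight x) (fun y => g y * g' y ^ k)
  obtain ⟨x₀, -, hx₀⟩ : ∃ x₀ ∈ (univ : Finset (ZMod M)), 2 * c * M ≤ R x₀ := by
    apply exists_le_of_sum_le univ_nonempty
    rw [sum_const, card_univ, ZMod.card, nsmul_eq_mul, hRsum]
    calc (M : ℝ) * (2 * c * M) = (A * M) * (A / 2 * M) := by rw [hc]; ring
      _ ≤ _ := mul_le_mul hmf hG (by positivity) (by
          refine le_trans ?_ hmf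
          positivity)
  refine ⟨Γ, x₀, h1, h2, ?_⟩
  set P := Fintype.piFinset (fun _ : Fin k => B) with hP
  have key := two_sum hGf hGg k x₀
  have hBp : (0 : ℝ) < B.card := hGf.card_pos
  set Bad := (B ×ˢ (P ×ˢ P)).filter fun p =>
    ((univ.filter fun x : ZMod M => (x ∈ U ∧ ∀ i, x + p.2.1 i ∈ U) ∧
      (x₀ + p.1 - x ∈ V ∧ ∀ j, x₀ + p.1 - x + p.2.2 j ∈ V)).card : ℝ) < c * M with hBad
  have hcf : ∀ (s : ZMod M) (u t : Fin k → ZMod M), cf f g k x₀ s u t =
      ((univ.filter fun x : ZMod M => (x ∈ U ∧ ∀ i, x + u i ∈ U) ∧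
      (x₀ + s - x ∈ V ∧ ∀ j, x₀ + s - x + t j ∈ V)).card : ℝ) := by
    intro s u t
    unfold cf
    rw [card_filter]
    push_cast
    refine sum_congr rfl fun x _ => ?_
    have aux : ∀ (S : Finset (ZMod M)) (y : ZMod M) (w : Fin k → ZMod M),
        (if y ∈ S then (1 : ℝ) else 0) * ∏ i, (if y + w i ∈ S then (1 : ℝ) else 0) =
          if (y ∈ S ∧ ∀ i, y + w i ∈ S) then 1 else 0 := by
      intro S y w
      by_cases hx : y ∈ S
      · rw [if_pos hx, one_mul]
        by_cases hall : ∀ i, y + w i ∈ S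
        · rw [if_pos ⟨hx, hall⟩]
          rw [prod_congr rfl fun i _ => if_pos (hall i), prod_const_one]
        · rw [if_neg (fun h => hall h.2)]
          push Not at hall
          obtain ⟨i, hi⟩ := hall
          exact prod_eq_zero (mem_univ i) (if_neg hi)
      · rw [if_neg hx, zero_mul, if_neg (fun h => hx h.1)]
    rw [hf, hg]
    simp only
    rw [aux U x u, aux V (x₀ + s - x) t]
    by_cases h3 : (x ∈ U ∧ ∀ i, x + u i ∈ U)
    · by_cases h4 : (x₀ + s - x ∈ V ∧ ∀ j, x₀ + s - x + t j ∈ V)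
      · rw [if_pos h3, if_pos h4, if_pos ⟨h3, h4⟩, one_mul]
      · rw [if_neg h4, mul_zero, if_neg fun h => h4 h.2]
    · rw [if_neg h3, zero_mul, if_neg fun h => h3 h.1]
  have h4 : ∀ p ∈ Bad, c * M ≤ |cf f g k x₀ p.1 p.2.1 p.2.2 - R x₀| := by
    rintro ⟨s, u, t⟩ hp
    have h5 := (mem_filter.1 hp).2
    simp only at h5 ⊢
    rw [← hcf s u t] at h5
    refine le_trans ?_ (neg_le_abs _)
    linarith
  have h5 : (Bad.card : ℝ) * (c * M) ≤
      (5 * k + 2) * (3 * ρ + 2 * ρ) * (B.card : ℝ) ^ (2 * k + 1) * M := by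
    refine le_trans ?_ key
    rw [← nsmul_eq_mul]
    refine (card_nsmul_le_sum Bad _ _ h4).trans ?_
    refine (sum_le_sum_of_subset_of_nonneg (filter_subset _ _) fun _ _ _ => abs_nonneg _).trans
      (le_of_eq ?_)
    rw [sum_product]
    refine sum_congr rfl fun s _ => ?_
    rw [sum_product_right]
  have h6 : (Bad.card : ℝ) * (c * M) ≤ (η * (B.card : ℝ) ^ (2 * k + 1)) * (c * M) := by
    refine h5.trans ?_
    have h7 : (5 * (k : ℝ) + 2) * (3 * ρ + 2 * ρ) ≤ η * c := by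
      have e : (5 * (k : ℝ) + 2) * (3 * ρ + 2 * ρ) = ρ * (5 * (5 * k + 2)) := by ring
      rw [e]
      exact hρ2
    calc (5 * (k : ℝ) + 2) * (3 * ρ + 2 * ρ) * (B.card : ℝ) ^ (2 * k + 1) * M ≤
          (η * c) * (B.card : ℝ) ^ (2 * k + 1) * M := by gcongr
      _ = _ := by ring
  exact le_of_mul_le_mul_right h6 (by positivity)

end Pool.Agent.V11161.BG
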