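import Mathlib
import Pool.Agent.V11161.BG.TwoStruct

set_option autoImplicit false

/-!
# From pairs of tuples to a translate of a Bohr set
-/

namespace Pool.Agent.V11161.BG

open Finset
open Pool.Agent.V11161.BF

open Classical in
/-- **the combinatorial theorem** -/
theorem caseB (k : ℕ) (α η : ℝ) (hα : 0 < α) (hη : 0 < η) : ∃ (d : ℕ) (ρ b ε : ℝ), 0 < ρ ∧ 0 < b ∧
    0 < ε ∧ ∀ (X : ℕ) (U V : Finset ℕ) (G : Finset ((Fin (k + 1) → ℕ) × (Fin (k + 1) → ℕ))),
      (∀ u ∈ U, u ≤ X) → (∀ v ∈ V, v ≤ X) → α * (2 * X + 1) ≤ U.card → α * (2 * X + 1) ≤ V.card →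
      ((((Fintype.piFinset fun _ : Fin (k + 1) => U) ×ˢ
        (Fintype.piFinset fun _ : Fin (k + 1) => V)) \ G).card : ℝ) ≤
          ε * ((2 * X + 1 : ℕ) : ℝ) ^ (2 * k + 2) →
      ∃ (Γ : Finset (ZMod (2 * X + 1))) (x₀ : ZMod (2 * X + 1)), Γ.card ≤ d ∧
        b * ((2 * X + 1 : ℕ) : ℝ) ≤ ((bohr Γ ρ).card : ℝ) ∧
        (1 - η) * ((bohr Γ ρ).card : ℝ) ^ (2 * k + 1) ≤
          (((bohr Γ ρ ×ˢ (Fintype.piFinset (fun _ : Fin k => bohr Γ ρ) ×ˢ
          Fintype.piFinset (fun _ : Fin k => bohr Γ ρ))).filter fun p =>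
            ∃ a ∈ G, (∀ i : Fin k, (a.1 i.succ : ℤ) - a.1 0 = (p.2.1 i).valMinAbs) ∧
              (∀ j : Fin k, (a.2 j.succ : ℤ) - a.2 0 = (p.2.2 j).valMinAbs) ∧
              a.1 0 + a.2 0 = (x₀ + p.1).val).card : ℝ) := by
  obtain ⟨d, ρ, b, c, hρ, hb, hc, hst⟩ := two_struct k α (η / 2) hα (by linarith)
  refine ⟨d, ρ, b, η / 2 * c * b ^ (2 * k + 1), hρ, hb, by positivity, ?_⟩
  intro X U V G hUX hVX hUc hVc hGc
  set M : ℕ := 2 * X + 1 with hM
  have hMr : (M : ℝ) = 2 * X + 1 := by rw [hM]; push_cast; ring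
  have hMi : (M : ℤ) = 2 * X + 1 := by rw [hM]; push_cast; ring
  have hM0 : (0 : ℝ) < M := by rw [hMr]; positivity
  have hinj : ∀ S : Finset ℕ, (∀ u ∈ S, u ≤ X) →
      Set.InjOn (fun u : ℕ => (u : ZMod M)) (S : Set ℕ) := by
    intro S hS u hu v hv huv
    have h1 : ((u : ℕ) : ZMod M) = ((v : ℕ) : ZMod M) := huv
    rw [ZMod.natCast_eq_natCast_iff'] at h1
    have h2 := hS u hu
    have h3 := hS v hv
    rw [Nat.mod_eq_of_lt (by omega), Nat.mod_eq_of_lt (by omega)] at h1
    exact h1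
  have hval : ∀ S : Finset ℕ, (∀ u ∈ S, u ≤ X) →
      ∀ x ∈ S.image fun u : ℕ => (u : ZMod M), x.val ∈ S ∧ x.val ≤ X := by
    intro S hS x hx
    obtain ⟨u, hu, rfl⟩ := mem_image.1 hx
    have h1 := hS u hu
    have h2 : ((u : ℕ) : ZMod M).val = u := by
      rw [ZMod.val_natCast, Nat.mod_eq_of_lt (by omega)]
    rw [h2]
    exact ⟨hu, h1⟩
  set UZ : Finset (ZMod M) := U.image fun u : ℕ => (u : ZMod M) with hUZ
  set VZ : Finset (ZMod M) := V.image fun u : ℕ => (u : ZMod M) with hVZ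
  have hUZc : UZ.card = U.card := card_image_of_injOn (hinj U hUX)
  have hVZc : VZ.card = V.card := card_image_of_injOn (hinj V hVX)
  obtain ⟨Γ, x₀, hΓ1, hΓ2, hΓ3⟩ := hst M UZ VZ (by rw [hUZc, hMr]; exact hUc)
    (by rw [hVZc, hMr]; exact hVc)
  refine ⟨Γ, x₀, hΓ1, hΓ2, ?_⟩
  set B := bohr Γ ρ with hB
  have hB0 : (0 : ℝ) < B.card := lt_of_lt_of_le (by positivity) hΓ2
  set P := Fintype.piFinset (fun _ : Fin k => B) with hP
  set Q : ZMod M × (Fin k → ZMod M) × (Fin k → ZMod M) → Prop := fun p => ∃ a ∈ G,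
    (∀ i : Fin k, (a.1 i.succ : ℤ) - a.1 0 = (p.2.1 i).valMinAbs) ∧
    (∀ j : Fin k, (a.2 j.succ : ℤ) - a.2 0 = (p.2.2 j).valMinAbs) ∧
    a.1 0 + a.2 0 = (x₀ + p.1).val with hQ
  set Bad := (B ×ˢ (P ×ˢ P)).filter (fun p => ¬ Q p) with hBad
  have hPc : (P.card : ℝ) = (B.card : ℝ) ^ k := by
    rw [hP, Fintype.card_piFinset, prod_const, card_univ, Fintype.card_fin]
    push_cast
    rfl
  have hall : ((B ×ˢ (P ×ˢ P)).card : ℝ) = (B.card : ℝ) ^ (2 * k + 1) := by
    rw [card_product, card_product]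
    push_cast
    rw [hPc]
    ring
  have hsum : (((B ×ˢ (P ×ˢ P)).filter Q).card : ℝ) + Bad.card = (B.card : ℝ) ^ (2 * k + 1) := by
    rw [← hall, hBad]
    exact_mod_cast card_filter_add_card_filter_not Q
  set R : ZMod M × (Fin k → ZMod M) × (Fin k → ZMod M) → Finset (ZMod M) := fun p =>
    univ.filter fun x : ZMod M => (x ∈ UZ ∧ ∀ i, x + p.2.1 i ∈ UZ) ∧
      (x₀ + p.1 - x ∈ VZ ∧ ∀ j, x₀ + p.1 - x + p.2.2 j ∈ VZ) with hR
  have hdiff : ∀ x y : ZMod M, x.val ≤ X → (x + y).val ≤ X →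
      ((x + y).val : ℤ) - x.val = y.valMinAbs := by
    intro x y hx hy
    symm
    rw [ZMod.valMinAbs_spec]
    refine ⟨?_, ?_⟩
    · push_cast
      rw [ZMod.natCast_zmod_val, ZMod.natCast_zmod_val]
      ring
    · rw [Set.mem_Ioc]
      constructor
      · omega
      · omega
  have hcount : ∑ p ∈ Bad, (R p).card ≤ (((Fintype.piFinset fun _ : Fin (k + 1) => U) ×ˢ
        (Fintype.piFinset fun _ : Fin (k + 1) => V)) \ G).card := by
    rw [← card_sigma]
    refine card_le_card_of_injOn (fun q =>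
      ((fun i : Fin (k + 1) =>
        ((Fin.cons q.2 (fun i => q.2 + q.1.2.1 i) : Fin (k + 1) → ZMod M) i).val),
       (fun i : Fin (k + 1) =>
        ((Fin.cons (x₀ + q.1.1 - q.2) (fun i => x₀ + q.1.1 - q.2 + q.1.2.2 i) :
          Fin (k + 1) → ZMod M) i).val))) ?_ ?_
    · rintro ⟨⟨s, u, t⟩, x⟩ hp
      rw [mem_coe, mem_sigma] at hp
      obtain ⟨h2, h3⟩ := hp
      simp only at h2 h3
      obtain ⟨-, ⟨hx, hxu⟩, hy, hyt⟩ := mem_filter.1 h3
      simp only at hxu hy hyt
      rw [mem_coe, Finset.mem_sdiff, mem_product, Fintype.mem_piFinset, Fintype.mem_piFinset]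
      refine ⟨⟨fun i => ?_, fun i => ?_⟩, fun hmem => ?_⟩
      · refine Fin.cases ?_ (fun j => ?_) i
        · simp only [Fin.cons_zero]
          exact (hval U hUX x hx).1
        · simp only [Fin.cons_succ]
          exact (hval U hUX _ (hxu j)).1
      · refine Fin.cases ?_ (fun j => ?_) i
        · simp only [Fin.cons_zero]
          exact (hval V hVX _ hy).1
        · simp only [Fin.cons_succ]
          exact (hval V hVX _ (hyt j)).1
      · apply (mem_filter.1 h2).2
        refine ⟨_, hmem, fun i => ?_, fun j => ?_, ?_⟩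
        · simp only [Fin.cons_zero, Fin.cons_succ]
          exact hdiff x (u i) (hval U hUX x hx).2 (hval U hUX _ (hxu i)).2
        · simp only [Fin.cons_zero, Fin.cons_succ]
          exact hdiff _ (t j) (hval V hVX _ hy).2 (hval V hVX _ (hyt j)).2
        · simp only [Fin.cons_zero]
          have h4 := (hval U hUX x hx).2
          have h5 := (hval V hVX _ hy).2
          have e : x₀ + s = x + (x₀ + s - x) := by ring
          rw [e, ZMod.val_add_of_lt (by omega)]
          simp only [add_sub_cancel_left]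
    · rintro ⟨⟨s, u, t⟩, x⟩ - ⟨⟨s', u', t'⟩, x'⟩ - h
      simp only [Prod.mk.injEq] at h
      obtain ⟨h1, h2⟩ := h
      have h0 := congrFun h1 0
      simp only [Fin.cons_zero] at h0
      have hx : x = x' := ZMod.val_injective M h0
      subst hx
      have hu : u = u' := by
        funext i
        have h3 := congrFun h1 i.succ
        simp only [Fin.cons_succ] at h3
        exact add_left_cancel (ZMod.val_injective M h3)
      subst hu
      have h3 := congrFun h2 0
      simp only [Fin.cons_zero] at h3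
      have h4 : x₀ + s - x = x₀ + s' - x := ZMod.val_injective M h3
      have hs : s = s' := by
        have h5 : x₀ + s = x₀ + s' := sub_left_injective h4
        exact add_left_cancel h5
      subst hs
      have ht : t = t' := by
        funext i
        have h3 := congrFun h2 i.succ
        simp only [Fin.cons_succ] at h3
        exact add_left_cancel (ZMod.val_injective M h3)
      rw [ht]
  have hcount' : (∑ p ∈ Bad, ((R p).card : ℝ)) ≤
      η / 2 * c * b ^ (2 * k + 1) * (M : ℝ) ^ (2 * k + 2) := by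
    refine le_trans ?_ hGc
    exact_mod_cast hcount
  -- the unpopular ones
  set NP := (B ×ˢ (P ×ˢ P)).filter (fun p => ((R p).card : ℝ) < c * M) with hNP
  have hNPc : (NP.card : ℝ) ≤ η / 2 * (B.card : ℝ) ^ (2 * k + 1) := hΓ3
  have hBadc : (Bad.card : ℝ) ≤ (NP.card : ℝ) + (Bad.filter fun p => p ∉ NP).card := by
    have h1 : Bad ⊆ NP ∪ Bad.filter fun p => p ∉ NP := by
      intro p hp
      rw [mem_union]
      by_cases h : p ∈ NP
      · exact Or.inl h
      · exact Or.inr (mem_filter.2 ⟨hp, h⟩)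
    exact_mod_cast (card_le_card h1).trans (card_union_le _ _)
  have hpop : ((Bad.filter fun p => p ∉ NP).card : ℝ) * (c * M) ≤
      η / 2 * c * b ^ (2 * k + 1) * (M : ℝ) ^ (2 * k + 2) := by
    refine le_trans ?_ hcount'
    rw [← nsmul_eq_mul]
    refine (card_nsmul_le_sum (Bad.filter fun p => p ∉ NP) (fun p => ((R p).card : ℝ)) _ ?_).trans ?_
    · intro p hp
      obtain ⟨h1, h2⟩ := mem_filter.1 hp
      by_contra hcon
      exact h2 (mem_filter.2 ⟨(mem_filter.1 h1).1, not_le.1 hcon⟩)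
    · exact sum_le_sum_of_subset_of_nonneg (filter_subset _ _) fun _ _ _ => Nat.cast_nonneg _
  have hpop2 : ((Bad.filter fun p => p ∉ NP).card : ℝ) ≤ η / 2 * (B.card : ℝ) ^ (2 * k + 1) := by
    have h1 : η / 2 * c * b ^ (2 * k + 1) * (M : ℝ) ^ (2 * k + 2) ≤
        (η / 2 * (B.card : ℝ) ^ (2 * k + 1)) * (c * M) := by
      have h4 : (b * M) ^ (2 * k + 1) ≤ (B.card : ℝ) ^ (2 * k + 1) :=
        pow_le_pow_left₀ (by positivity) hΓ2 _
      calc η / 2 * c * b ^ (2 * k + 1) * (M : ℝ) ^ (2 * k + 2) =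
            (η / 2) * ((b * M) ^ (2 * k + 1)) * (c * M) := by
            rw [mul_pow, pow_succ (M : ℝ) (2 * k + 1)]
            ring
        _ ≤ _ := by
            apply mul_le_mul_of_nonneg_right _ (by positivity)
            exact mul_le_mul_of_nonneg_left h4 (by positivity)
    exact le_of_mul_le_mul_right (hpop.trans h1) (by positivity)
  linarith

end Pool.Agent.V11161.BG
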