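import Mathlib
import Pool.Agent.V11161.BG.CaseA
import Pool.Agent.V11161.BG.CaseB
import Pool.Agent.V11161.GV.Conv
import Pool.Agent.V11161.CL.Main

set_option autoImplicit false

/-!
# Goldbach numbers in a translate of a Bohr set, or almost all differences
-/

namespace Pool.Agent.V11161.BG

open Finset Filter Topology
open Pool.Agent.V11161.BF
open Pool.Agent.V11161.GV (lf rf lf_inj rf_inj adf_lf adf_rf toNat_eq)
open Pool.Agent.Y827.GS (Adf cntN cntN_anti)
open Pool.Agent.V11161.CL (mainOne)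

/-- rescaling -/
theorem scale_thr (C : ℕ) : ∀ᶠ m : ℕ in atTop, (m : ℝ) / (Real.log m) ^ (C + 1) ≤
    ((m + m / 2 : ℕ) : ℝ) / (Real.log ((m + m / 2 : ℕ) : ℝ)) ^ C := by
  have h1 : Tendsto (fun N : ℕ => Real.log (N : ℝ)) atTop atTop :=
    Real.tendsto_log_atTop.comp tendsto_natCast_atTop_atTop
  filter_upwards [h1.eventually_ge_atTop ((2 : ℝ) ^ C), eventually_ge_atTop 2] with m hm hm2
  have hmr : (2 : ℝ) ≤ m := by exact_mod_cast hm2
  have h2 : (0 : ℝ) < Real.log m := Real.log_pos (by linarith)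
  set N : ℕ := m + m / 2 with hN
  have hN1 : (m : ℝ) ≤ N := by
    have : m ≤ N := by omega
    exact_mod_cast this
  have hN2 : (N : ℝ) ≤ 2 * m := by
    have : N ≤ 2 * m := by omega
    exact_mod_cast this
  have h3 : Real.log N ≤ 2 * Real.log m := by
    calc Real.log N ≤ Real.log (m * m) := by
          apply Real.log_le_log (by linarith)
          nlinarith
      _ = 2 * Real.log m := by
          rw [Real.log_mul (by linarith) (by linarith)]
          ring
  have h4 : (0 : ℝ) < Real.log N := Real.log_pos (by linarith)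
  have h5 : (Real.log N) ^ C ≤ (Real.log m) ^ (C + 1) := by
    calc (Real.log N) ^ C ≤ (2 * Real.log m) ^ C := by gcongr
      _ = 2 ^ C * (Real.log m) ^ C := mul_pow _ _ _
      _ ≤ Real.log m * (Real.log m) ^ C := by gcongr
      _ = (Real.log m) ^ (C + 1) := by rw [pow_succ]; ring
  calc (m : ℝ) / (Real.log m) ^ (C + 1) ≤ (N : ℝ) / (Real.log m) ^ (C + 1) := by gcongr
    _ ≤ (N : ℝ) / (Real.log N) ^ C :=
        div_le_div_of_nonneg_left (Nat.cast_nonneg _) (by positivity) h5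

/-- the primes `p ≤ 2 m` such that `p + W h` is a prime -/
def pairSet (m W h : ℕ) : Set ℕ := {p : ℕ | p ≤ 2 * m ∧ p.Prime ∧ (p + W * h).Prime}

/-- the primes `p` for which `q = m + W (x₀ + s) - p` is a prime, all the `p + W u_i` are primes and
all the `q + W t_j` are primes -/
def twoSides {k M : ℕ} (m W : ℕ) (x₀ s : ZMod M) (u t : Fin k → ZMod M) : Set ℕ :=
  {p : ℕ | p.Prime ∧ (∀ i, ∃ p' : ℕ, p'.Prime ∧ (p' : ℤ) = p + W * (u i).valMinAbs) ∧
    ∃ q : ℕ, q.Prime ∧ p + q = m + W * (x₀ + s).val ∧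
      ∀ j, ∃ q' : ℕ, q'.Prime ∧ (q' : ℤ) = q + W * (t j).valMinAbs}

theorem cnt_left {m W X x h N : ℕ} (hx : x ≤ X) (hN : N = m + m / 2) (hm : 2 * W * X + 4 ≤ m) :
    cntN {lf (W * x), lf (W * (x + h))} N ≤ (pairSet m W h).ncard := by
  unfold cntN
  rw [← Set.ncard_coe_finset]
  refine Set.ncard_le_ncard_of_injOn (fun n : ℕ => n + W * x) ?_ ?_
    ((Set.finite_Iic (2 * m)).subset fun p hp => hp.1)
  · intro n hn
    obtain ⟨h3, h4⟩ := mem_filter.1 (mem_coe.1 hn)
    have h5 : (1 * (n : ℤ) + ((W * x : ℕ) : ℤ)).toNat.Prime := h4 _ (mem_insert_self _ _)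
    have h6 : (1 * (n : ℤ) + ((W * (x + h) : ℕ) : ℤ)).toNat.Prime :=
      h4 _ (mem_insert_of_mem (mem_singleton_self _))
    have e5 : (1 * (n : ℤ) + ((W * x : ℕ) : ℤ)).toNat = n + W * x := by omega
    have e6 : (1 * (n : ℤ) + ((W * (x + h) : ℕ) : ℤ)).toNat = n + W * (x + h) := by omega
    rw [e5] at h5
    rw [e6] at h6
    have h7 := (mem_Icc.1 h3).2
    have h8 : W * x ≤ W * X := Nat.mul_le_mul_left _ hx
    have h9 : 2 * W * X = 2 * (W * X) := by ring
    refine ⟨?_, h5, ?_⟩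
    · show n + W * x ≤ 2 * m
      omega
    · have e : n + W * x + W * h = n + W * (x + h) := by ring
      show (n + W * x + W * h).Prime
      rw [e]
      exact h6
  · intro n _ n' _ hnn
    have h7 : n + W * x = n' + W * x := hnn
    omega

theorem cnt_right {m W X x h N : ℕ} (hx : x ≤ X) (hm : 2 * W * X + 4 ≤ m) :
    cntN {rf (m + W * x), rf (m + W * (x + h))} N ≤ (pairSet m W h).ncard := by
  unfold cntN
  rw [← Set.ncard_coe_finset]
  have key : ∀ n : ℕ, n ∈ (Icc 1 N).filter (fun n : ℕ =>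
      ∀ f ∈ ({rf (m + W * x), rf (m + W * (x + h))} : Finset (ℤ × ℤ)),
        (f.1 * (n : ℤ) + f.2).toNat.Prime) → n < m + W * x ∧ (m + W * x - n).Prime ∧
          (m + W * (x + h) - n).Prime := by
    intro n hn
    obtain ⟨h3, h4⟩ := mem_filter.1 hn
    have h5 : (-1 * (n : ℤ) + ((m + W * x : ℕ) : ℤ)).toNat.Prime := h4 _ (mem_insert_self _ _)
    have h6 : (-1 * (n : ℤ) + ((m + W * (x + h) : ℕ) : ℤ)).toNat.Prime :=
      h4 _ (mem_insert_of_mem (mem_singleton_self _))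
    have e5 : (-1 * (n : ℤ) + ((m + W * x : ℕ) : ℤ)).toNat = m + W * x - n := by omega
    have e6 : (-1 * (n : ℤ) + ((m + W * (x + h) : ℕ) : ℤ)).toNat = m + W * (x + h) - n := by omega
    rw [e5] at h5
    rw [e6] at h6
    have := h5.pos
    exact ⟨by omega, h5, h6⟩
  refine Set.ncard_le_ncard_of_injOn (fun n : ℕ => m + W * x - n) ?_ ?_
    ((Set.finite_Iic (2 * m)).subset fun p hp => hp.1)
  · intro n hn
    obtain ⟨h3, h5, h6⟩ := key n (mem_coe.1 hn)
    have h8 : W * x ≤ W * X := Nat.mul_le_mul_left _ hx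
    have h9 : 2 * W * X = 2 * (W * X) := by ring
    refine ⟨?_, h5, ?_⟩
    · show m + W * x - n ≤ 2 * m
      omega
    · have e : m + W * x - n + W * h = m + W * (x + h) - n := by
        have : W * (x + h) = W * x + W * h := by ring
        omega
      show (m + W * x - n + W * h).Prime
      rw [e]
      exact h6
  · intro n hn n' hn' hnn
    have h7 : m + W * x - n = m + W * x - n' := hnn
    have h3 := (key n (mem_coe.1 hn)).1
    have h4 := (key n' (mem_coe.1 hn')).1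
    omega

theorem cnt_both {k M m W N : ℕ} (x₀ s : ZMod M) (u t : Fin k → ZMod M)
    (a a' : Fin (k + 1) → ℕ)
    (h1 : ∀ i : Fin k, (a i.succ : ℤ) - a 0 = (u i).valMinAbs)
    (h2 : ∀ j : Fin k, (a' j.succ : ℤ) - a' 0 = (t j).valMinAbs)
    (h3 : a 0 + a' 0 = (x₀ + s).val) (S : Finset (ℤ × ℤ)) (hS1 : ∀ i, lf (W * a i) ∈ S)
    (hS2 : ∀ j, rf (m + W * a' j) ∈ S) :
    cntN S N ≤ (twoSides m W x₀ s u t).ncard := by
  unfold cntN
  rw [← Set.ncard_coe_finset]
  refine Set.ncard_le_ncard_of_injOn (fun n : ℕ => n + W * a 0) ?_ ?_ ?_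
  · intro n hn
    obtain ⟨-, h4⟩ := mem_filter.1 (mem_coe.1 hn)
    have hl : ∀ i, (n + W * a i).Prime := by
      intro i
      have h5 : (1 * (n : ℤ) + ((W * a i : ℕ) : ℤ)).toNat.Prime := h4 _ (hS1 i)
      have e5 : (1 * (n : ℤ) + ((W * a i : ℕ) : ℤ)).toNat = n + W * a i := by omega
      rw [e5] at h5
      exact h5
    have hr : ∀ j, n < m + W * a' j ∧ (m + W * a' j - n).Prime := by
      intro j
      have h5 : (-1 * (n : ℤ) + ((m + W * a' j : ℕ) : ℤ)).toNat.Prime := h4 _ (hS2 j)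
      have e5 : (-1 * (n : ℤ) + ((m + W * a' j : ℕ) : ℤ)).toNat = m + W * a' j - n := by omega
      rw [e5] at h5
      have := h5.pos
      exact ⟨by omega, h5⟩
    refine ⟨hl 0, fun i => ⟨n + W * a i.succ, hl i.succ, ?_⟩, m + W * a' 0 - n, (hr 0).2, ?_,
      fun j => ⟨m + W * a' j.succ - n, (hr j.succ).2, ?_⟩⟩
    · rw [← h1 i]
      push_cast
      ring
    · show n + W * a 0 + (m + W * a' 0 - n) = m + W * (x₀ + s).val
      rw [← h3, Nat.mul_add]
      have := (hr 0).1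
      omega
    · rw [← h2 j]
      have h6 := (hr 0).1
      have h7 := (hr j.succ).1
      rw [Nat.cast_sub h7.le, Nat.cast_sub h6.le]
      push_cast
      ring
  · intro n _ n' _ hnn
    have h7 : n + W * a 0 = n' + W * a 0 := hnn
    omega
  · refine (Set.finite_Iic (m + W * (x₀ + s).val)).subset ?_
    rintro p ⟨-, -, q, -, hq, -⟩
    show p ≤ _
    omega

theorem card_filter_inst {β : Type} (Q : β → Prop) (i₁ i₂ : DecidablePred Q) (T : Finset β) :
    (@Finset.filter _ Q i₁ T).card = (@Finset.filter _ Q i₂ T).card := by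
  congr

open Classical in
theorem gold (k : ℕ) (η : ℝ) (hη : 0 < η) :
    ∃ (W r C X₀ : ℕ) (ρ b : ℝ), 0 < W ∧ 0 < ρ ∧ 0 < b ∧ ∀ X : ℕ, X₀ ≤ X →
      ∀ᶠ m : ℕ in atTop, Even m →
      ((1 - η) * ((X / 100 : ℕ) : ℝ) ≤ ({h : ℕ | 1 ≤ h ∧ h ≤ X / 100 ∧
        (m : ℝ) / (Real.log m) ^ C ≤ ((pairSet m W h).ncard : ℝ)}.ncard : ℝ)) ∨
      ∃ (Γ : Finset (ZMod (2 * X + 1))) (x₀ : ZMod (2 * X + 1)), Γ.card ≤ r ∧
        b * ((2 * X + 1 : ℕ) : ℝ) ≤ ((bohr Γ ρ).card : ℝ) ∧
        (1 - η) * ((bohr Γ ρ).card : ℝ) ^ (2 * k + 1) ≤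
          (((bohr Γ ρ ×ˢ (Fintype.piFinset (fun _ : Fin k => bohr Γ ρ) ×ˢ
          Fintype.piFinset (fun _ : Fin k => bohr Γ ρ))).filter fun p =>
            (m : ℝ) / (Real.log m) ^ C ≤ ((twoSides m W x₀ p.1 p.2.1 p.2.2).ncard : ℝ)).card : ℝ) := by
  obtain ⟨r, ρ, b, ε₁, hρ, hb, hε₁, hB⟩ := caseB k (1 / 200) η (by norm_num) hη
  set ε : ℝ := min (1 / 1000) (min (7 * η / 80000) (ε₁ / 2 ^ (2 * k + 2))) with hε
  have hε0 : 0 < ε := lt_min (by norm_num) (lt_min (by positivity) (by positivity))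
  have hε1 : ε ≤ 1 / 1000 := min_le_left _ _
  have hε2 : ε ≤ 7 * η / 80000 := (min_le_right _ _).trans (min_le_left _ _)
  have hε3 : ε * 2 ^ (2 * k + 2) ≤ ε₁ := by
    have : ε ≤ ε₁ / 2 ^ (2 * k + 2) := (min_le_right _ _).trans (min_le_right _ _)
    rwa [le_div_iff₀ (by positivity)] at this
  obtain ⟨z, n₀, C, hmain⟩ := mainOne (k + 1 + k) ε hε0
  set W : ℕ := z.factorial with hW
  have hW0 : 0 < W := Nat.factorial_pos z
  refine ⟨W, r, C + 1, max n₀ 100, ρ, b, hW0, hρ, hb, fun X hX => ?_⟩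
  have hXn : n₀ ≤ X := (le_max_left _ _).trans hX
  have hX100 : 100 ≤ X := (le_max_right _ _).trans hX
  have htend : Tendsto (fun m : ℕ => m + m / 2) atTop atTop :=
    tendsto_atTop_mono (fun m => Nat.le_add_right m (m / 2)) tendsto_id
  filter_upwards [htend.eventually (hmain 1), scale_thr C, eventually_ge_atTop (2 * W * X + 4)]
    with m hm hthr hm2 hev
  set N := m + m / 2 with hN
  have hWX : 2 * W * X = 2 * (W * X) := by ring
  have hWle : ∀ v, v ≤ X → W * v ≤ W * X := fun v hv => Nat.mul_le_mul_left _ hv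
  set F₁ : ℕ → ℤ × ℤ := fun v => lf (W * v) with hF₁
  set F₂ : ℕ → ℤ × ℤ := fun w => rf (m + W * w) with hF₂
  have hF₁i : Function.Injective F₁ := fun x y h => Nat.eq_of_mul_eq_mul_left hW0 (lf_inj h)
  have hF₂i : Function.Injective F₂ := fun x y h =>
    Nat.eq_of_mul_eq_mul_left hW0 (Nat.add_left_cancel (rf_inj h))
  have hF12 : ∀ x y, F₁ x ≠ F₂ y := by
    intro x y h
    have h1 : (1 : ℤ) = -1 := congrArg Prod.fst h
    norm_num at h1
  set V := (range (X + 1)).image F₁ ∪ (range (X + 1)).image F₂ with hV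
  have hVc : V.card = 2 * (X + 1) := by
    rw [hV, card_union_of_disjoint, card_image_of_injective _ hF₁i, card_image_of_injective _ hF₂i,
      card_range]
    · ring
    · rw [disjoint_left]
      intro f h1 h2
      obtain ⟨x, -, rfl⟩ := mem_image.1 h1
      obtain ⟨y, -, hy⟩ := mem_image.1 h2
      exact hF12 x y hy.symm
  obtain ⟨U, hU1, hU2, hU3⟩ := hm V (by rw [hVc]; omega) (by
      intro f hf
      rcases mem_union.1 hf with h | h
      · obtain ⟨x, hx, rfl⟩ := mem_image.1 h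
        have := mem_range.1 hx
        have := hWle x (by omega)
        exact adf_lf (by omega)
      · obtain ⟨x, hx, rfl⟩ := mem_image.1 h
        have := mem_range.1 hx
        have := hWle x (by omega)
        exact adf_rf (by omega) (by omega)) (by
      intro p hp hpz
      have hpW : (p : ℤ) ∣ W := by exact_mod_cast Nat.dvd_factorial hp.pos hpz
      have h1 : ∀ t : ℤ, ¬ (p : ℤ) ∣ t → ∀ v : ℕ, ¬ (p : ℤ) ∣ (F₁ v).1 * t + (F₁ v).2 := by
        intro t ht v hd
        apply ht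
        have e : (F₁ v).1 * t + (F₁ v).2 = t + W * v := by
          show (1 : ℤ) * t + ((W * v : ℕ) : ℤ) = t + W * v
          push_cast
          ring
        rw [e] at hd
        exact (Int.dvd_iff_dvd_of_dvd_add hd).2 (hpW.mul_right _)
      have h2 : ∀ t : ℤ, ¬ (p : ℤ) ∣ (m : ℤ) - t → ∀ v : ℕ,
          ¬ (p : ℤ) ∣ (F₂ v).1 * t + (F₂ v).2 := by
        intro t ht v hd
        apply ht
        have e : (F₂ v).1 * t + (F₂ v).2 = (m - t) + W * v := by
          show (-1 : ℤ) * t + ((m + W * v : ℕ) : ℤ) = (m - t) + W * v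
          push_cast
          ring
        rw [e] at hd
        exact (Int.dvd_iff_dvd_of_dvd_add hd).2 (hpW.mul_right _)
      obtain ⟨t, ht1, ht2⟩ : ∃ t : ℤ, ¬ (p : ℤ) ∣ t ∧ ¬ (p : ℤ) ∣ (m : ℤ) - t := by
        have hp1 : ¬ (p : ℤ) ∣ 1 := by
          intro h
          have h4 : p ∣ 1 := by exact_mod_cast h
          exact hp.one_lt.ne' (Nat.dvd_one.1 h4)
        by_cases hp2 : p = 2
        · refine ⟨1, hp1, ?_⟩
          subst hp2
          obtain ⟨c, hc⟩ := hev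
          omega
        · by_cases hd : (p : ℤ) ∣ (m : ℤ) - 1
          · refine ⟨2, ?_, ?_⟩
            · intro h
              have h4 : p ∣ 2 := by exact_mod_cast h
              have := Nat.le_of_dvd (by norm_num) h4
              have := hp.two_le
              omega
            · intro h
              apply hp1
              have e : (1 : ℤ) = (m - 1) - (m - 2) := by ring
              rw [e]
              exact dvd_sub hd h
          · exact ⟨1, hp1, hd⟩
      refine ⟨t, fun f hf => ?_⟩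
      rcases mem_union.1 hf with h | h
      · obtain ⟨x, hx, rfl⟩ := mem_image.1 h
        exact h1 t ht1 x
      · obtain ⟨x, hx, rfl⟩ := mem_image.1 h
        exact h2 t ht2 x)
  set U₁ := (range (X + 1)).filter (fun x => F₁ x ∈ U) with hU₁
  set U₂ := (range (X + 1)).filter (fun x => F₂ x ∈ U) with hU₂
  have hU₁X : ∀ u ∈ U₁, u ≤ X := fun u hu => by
    have := mem_range.1 (mem_filter.1 hu).1
    omega
  have hU₂X : ∀ u ∈ U₂, u ≤ X := fun u hu => by
    have := mem_range.1 (mem_filter.1 hu).1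
    omega
  have hUc : U.card ≤ U₁.card + U₂.card := by
    have h1 : U ⊆ U₁.image F₁ ∪ U₂.image F₂ := by
      intro f hf
      rcases mem_union.1 (hU1 hf) with h | h
      · obtain ⟨x, hx, rfl⟩ := mem_image.1 h
        exact mem_union_left _ (mem_image_of_mem _ (mem_filter.2 ⟨hx, hf⟩))
      · obtain ⟨x, hx, rfl⟩ := mem_image.1 h
        exact mem_union_right _ (mem_image_of_mem _ (mem_filter.2 ⟨hx, hf⟩))
    exact (card_le_card h1).trans ((card_union_le _ _).trans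
      (add_le_add card_image_le card_image_le))
  have hUc2 : (U.card : ℝ) ≤ 2 * ((X : ℝ) + 1) := by
    have := card_le_card hU1
    rw [hVc] at this
    exact_mod_cast this
  have hUcr : (U.card : ℝ) ≤ U₁.card + U₂.card := by exact_mod_cast hUc
  have hUlow : (5 / 9 - 2 / 1000) * ((X : ℝ) + 1) ≤ U.card := by
    refine le_trans ?_ hU2
    rw [hVc]
    push_cast
    have : (0 : ℝ) ≤ (X : ℝ) + 1 := by positivity
    nlinarith
  obtain ⟨Gd, hGd⟩ : ∃ Gd : Finset (ℤ × ℤ) → Prop,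
      Gd = fun F => (N : ℝ) / (Real.log N) ^ C ≤ (cntN F N : ℝ) := ⟨_, rfl⟩
  have hGdi : ∀ F, Gd F ↔ (N : ℝ) / (Real.log N) ^ C ≤ (cntN F N : ℝ) := fun F => by rw [hGd]
  have hGda : ∀ F F' : Finset (ℤ × ℤ), F' ⊆ F → Gd F → Gd F' := fun F F' hF h =>
    (hGdi _).2 (((hGdi _).1 h).trans (by exact_mod_cast cntN_anti hF N))
  have hU4 : (1 - ε) * (U.card : ℝ) ^ (k + 1 + k + 1) ≤
      (((Fintype.piFinset fun _ : Fin (k + 1 + k + 1) => U).filter fun t =>
        Function.Injective t ∧ Gd (univ.image t)).card : ℝ) := by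
    subst hGd
    convert hU3
  clear hU3
  have hpairs := pairs_of_tuples U Gd hGda (k + 1 + k + 1) (2 * k) (by omega) ε hU4
  have hpairs2 : (((U ×ˢ U).filter fun p => ¬ (p.1 ≠ p.2 ∧ Gd {p.1, p.2})).card : ℝ) ≤
      4 * ε * ((X : ℝ) + 1) ^ 2 := by
    refine hpairs.trans ?_
    calc ε * (U.card : ℝ) ^ 2 ≤ ε * (2 * ((X : ℝ) + 1)) ^ 2 := by gcongr
      _ = _ := by ring
  have hL100 : 100 * (X / 100) ≤ X := Nat.mul_div_le X 100
  have hLpos : (X : ℝ) + 1 ≤ 200 * ((X / 100 : ℕ) : ℝ) := by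
    have : X + 1 ≤ 200 * (X / 100) := by omega
    exact_mod_cast this
  -- one of the two sets is small
  have hone : ∀ (F : ℕ → ℤ × ℤ), Function.Injective F → ∀ U' : Finset ℕ, (∀ u ∈ U', u ≤ X) →
      (∀ u ∈ U', F u ∈ U) → 54 / 100 * ((X : ℝ) + 1) ≤ U'.card →
      (∀ x h, x ≤ X → cntN {F x, F (x + h)} N ≤ (pairSet m W h).ncard) →
      ((1 - η) * ((X / 100 : ℕ) : ℝ) ≤ ({h : ℕ | 1 ≤ h ∧ h ≤ X / 100 ∧
        (m : ℝ) / (Real.log m) ^ (C + 1) ≤ ((pairSet m W h).ncard : ℝ)}.ncard : ℝ)) := by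
    intro F hF U' hU'X hU'U hU'c hcnt
    obtain ⟨g, hg⟩ : ∃ g : ℕ → ℕ → Prop, ∀ x y, g x y ↔ (x ≤ X ∧ F x ≠ F y ∧ Gd {F x, F y}) :=
      ⟨_, fun _ _ => Iff.rfl⟩
    have h1 := caseA X (X / 100) hL100 U' hU'X hU'c g (4 * ε) (by
        refine le_trans ?_ hpairs2
        rw [Nat.cast_le]
        refine card_le_card_of_injOn (fun p => (F p.1, F p.2)) ?_ ?_
        · rintro ⟨x, y⟩ hp
          obtain ⟨h2, h3⟩ := mem_filter.1 (mem_coe.1 hp)
          obtain ⟨h4, h5⟩ := mem_product.1 h2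
          rw [mem_coe, mem_filter, mem_product]
          exact ⟨⟨hU'U x h4, hU'U y h5⟩, fun h6 => h3 ((hg _ _).2 ⟨hU'X x h4, h6.1, h6.2⟩)⟩
        · rintro ⟨x, y⟩ - ⟨x', y'⟩ - h
          simp only [Prod.mk.injEq] at h
          rw [hF h.1, hF h.2])
    have h2 : (1 - η) * ((X / 100 : ℕ) : ℝ) ≤ ((X / 100 : ℕ) : ℝ) -
        4 * ε * (100 / 7) * ((X : ℝ) + 1) := by
      have h3 : 4 * ε * (100 / 7) * ((X : ℝ) + 1) ≤ η * ((X / 100 : ℕ) : ℝ) := by
        calc 4 * ε * (100 / 7) * ((X : ℝ) + 1) ≤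
              4 * (7 * η / 80000) * (100 / 7) * (200 * ((X / 100 : ℕ) : ℝ)) := by gcongr
          _ = _ := by ring
      linarith
    refine h2.trans (h1.trans ?_)
    rw [Nat.cast_le, ← Set.ncard_coe_finset]
    refine Set.ncard_le_ncard ?_ ((Set.finite_Iic (X / 100)).subset fun h hh => hh.2.1)
    intro h hh
    obtain ⟨h3, x, hx⟩ := mem_filter.1 (mem_coe.1 hh)
    obtain ⟨h4, h5, h6⟩ := (hg _ _).1 hx
    obtain ⟨h7, h8⟩ := mem_Icc.1 h3
    refine ⟨h7, h8, hthr.trans (((hGdi _).1 h6).trans ?_)⟩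
    exact_mod_cast hcnt x h h4
  rcases lt_or_ge (U₂.card : ℝ) (1 / 200 * (2 * X + 1)) with hs2 | hs2
  · left
    exact hone F₁ hF₁i U₁ hU₁X (fun u hu => (mem_filter.1 hu).2) (by linarith)
      fun x h hx => cnt_left hx hN hm2
  rcases lt_or_ge (U₁.card : ℝ) (1 / 200 * (2 * X + 1)) with hs1 | hs1
  · left
    exact hone F₂ hF₂i U₂ hU₂X (fun u hu => (mem_filter.1 hu).2) (by linarith)
      fun x h hx => cnt_right hx hm2
  right
  -- both are large
  set P₁ := Fintype.piFinset fun _ : Fin (k + 1) => U₁ with hP₁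
  set P₂ := Fintype.piFinset fun _ : Fin (k + 1) => U₂ with hP₂
  set ap : (Fin (k + 1) → ℕ) × (Fin (k + 1) → ℕ) → (Fin (k + 1 + (k + 1)) → ℤ × ℤ) := fun a =>
    Fin.append (m := k + 1) (n := k + 1) (fun i => F₁ (a.1 i)) (fun j => F₂ (a.2 j)) with hap
  set G := (P₁ ×ˢ P₂).filter (fun a => Gd (univ.image (ap a))) with hG
  have hap1 : ∀ a (i : Fin (k + 1)), ap a (Fin.castAdd (k + 1) i) = F₁ (a.1 i) := fun a i =>
    Fin.append_left _ _ i
  have hap2 : ∀ a (j : Fin (k + 1)), ap a (Fin.natAdd (k + 1) j) = F₂ (a.2 j) := fun a j =>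
    Fin.append_right _ _ j
  have hnon : (((P₁ ×ˢ P₂) \ G).card : ℝ) ≤ ε₁ * ((2 * X + 1 : ℕ) : ℝ) ^ (2 * k + 2) := by
    set T := Fintype.piFinset fun _ : Fin (k + 1 + (k + 1)) => U with hT
    obtain ⟨Q, hQ⟩ : ∃ Q : (Fin (k + 1 + (k + 1)) → ℤ × ℤ) → Prop, Q = fun t =>
      Function.Injective t ∧ Gd (univ.image t) := ⟨_, rfl⟩
    have hTc : (T.card : ℝ) = (U.card : ℝ) ^ (k + 1 + k + 1) := by
      rw [hT, Fintype.card_piFinset, prod_const, card_univ, Fintype.card_fin]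
      push_cast
      rfl
    have hsum : ((T.filter Q).card : ℝ) + (T.filter fun t => ¬ Q t).card =
        (U.card : ℝ) ^ (k + 1 + k + 1) := by
      rw [← hTc]
      exact_mod_cast card_filter_add_card_filter_not Q
    have h1 : ((P₁ ×ˢ P₂) \ G).card ≤ (T.filter fun t => ¬ Q t).card := by
      refine card_le_card_of_injOn ap ?_ ?_
      · rintro ⟨a, a'⟩ ha
        obtain ⟨h2, h3⟩ := Finset.mem_sdiff.1 (mem_coe.1 ha)
        obtain ⟨h4, h5⟩ := mem_product.1 h2
        rw [hP₁, Fintype.mem_piFinset] at h4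
        rw [hP₂, Fintype.mem_piFinset] at h5
        rw [mem_coe, mem_filter, hT, Fintype.mem_piFinset]
        refine ⟨fun i => ?_, fun h6 => h3 (mem_filter.2 ⟨h2, ?_⟩)⟩
        swap
        · rw [hQ] at h6
          exact h6.2
        refine Fin.addCases (m := k + 1) (n := k + 1) (fun i => ?_) (fun j => ?_) i
        · rw [hap1]
          exact (mem_filter.1 (h4 i)).2
        · rw [hap2]
          exact (mem_filter.1 (h5 j)).2
      · rintro ⟨a, a'⟩ - ⟨c, c'⟩ - h
        have h2 : a = c := by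
          funext i
          have h3 := congrFun h (Fin.castAdd (k + 1) i)
          rw [hap1, hap1] at h3
          exact hF₁i h3
        have h4 : a' = c' := by
          funext j
          have h3 := congrFun h (Fin.natAdd (k + 1) j)
          rw [hap2, hap2] at h3
          exact hF₂i h3
        rw [h2, h4]
    have h2 : (((P₁ ×ˢ P₂) \ G).card : ℝ) ≤ (T.filter fun t => ¬ Q t).card := by exact_mod_cast h1
    have h3 : ((T.filter fun t => ¬ Q t).card : ℝ) ≤ ε * (U.card : ℝ) ^ (k + 1 + k + 1) := by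
      have h4 : (1 - ε) * (U.card : ℝ) ^ (k + 1 + k + 1) ≤ ((T.filter Q).card : ℝ) := by
        have hU5 : (1 - ε) * (U.card : ℝ) ^ (k + 1 + (k + 1)) ≤
            (((Fintype.piFinset fun _ : Fin (k + 1 + (k + 1)) => U).filter fun t =>
              Function.Injective t ∧ Gd (univ.image t)).card : ℝ) := hU4
        subst hQ
        refine (le_of_eq ?_).trans (hU5.trans (le_of_eq ?_))
        · rw [Nat.add_assoc (k + 1) k 1]
        · exact congrArg Nat.cast (card_filter_inst _ _ _ _)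
      linarith
    refine h2.trans (h3.trans ?_)
    have e : k + 1 + k + 1 = 2 * k + 2 := by ring
    rw [e]
    have h5 : (U.card : ℝ) ≤ 2 * ((2 * X + 1 : ℕ) : ℝ) := by
      refine hUc2.trans ?_
      push_cast
      have : (0 : ℝ) ≤ X := Nat.cast_nonneg _
      linarith
    calc ε * (U.card : ℝ) ^ (2 * k + 2) ≤ ε * (2 * ((2 * X + 1 : ℕ) : ℝ)) ^ (2 * k + 2) := by gcongr
      _ = (ε * 2 ^ (2 * k + 2)) * ((2 * X + 1 : ℕ) : ℝ) ^ (2 * k + 2) := by rw [mul_pow]; ring
      _ ≤ _ := by gcongr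
  obtain ⟨Γ, x₀, h1, h2, h3⟩ := hB X U₁ U₂ G hU₁X hU₂X hs1 hs2 hnon
  refine ⟨Γ, x₀, h1, h2, h3.trans ?_⟩
  rw [Nat.cast_le]
  refine card_le_card fun p hp => ?_
  obtain ⟨h4, a, ha, h5, h6, h7⟩ := mem_filter.1 hp
  refine mem_filter.2 ⟨h4, hthr.trans (((hGdi _).1 (mem_filter.1 ha).2).trans ?_)⟩
  have h8 := cnt_both (N := N) (m := m) (W := W) x₀ p.1 p.2.1 p.2.2 a.1 a.2 h5 h6 h7
    (univ.image (ap a)) (fun i => mem_image.2 ⟨_, mem_univ _, hap1 a i⟩)
    (fun j => mem_image.2 ⟨_, mem_univ _, hap2 a j⟩)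
  exact_mod_cast h8

end Pool.Agent.V11161.BG
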