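import Mathlib
import Pool.Agent.V11161.BG.Gold

set_option autoImplicit false

/-!
# Goldbach with distinct odd primes on a translate of a Bohr set, or almost all differences
-/

namespace Pool.Agent.V11161.BG

open Finset Filter Topology
open Pool.Agent.V11161.BF

/-- the Bohr set of the frequencies `Γ`, of radius `ρ`, modulo `M` -/
def bohrMod {M : ℕ} [NeZero M] (Γ : Finset (ZMod M)) (ρ : ℝ) : Set (ZMod M) :=
  {h : ZMod M | ∀ r ∈ Γ, ‖(ZMod.stdAddChar (r * h) : ℂ) - 1‖ ≤ ρ}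

/-- the odd primes `p` for which `q = m + W (x₀ + s) - p` is an odd prime other than `p`, all the
`p + W u_i` are primes and all the `q + W t_j` are primes -/
def oddPairs {k M : ℕ} (m W : ℕ) (x₀ s : ZMod M) (u t : Fin k → ZMod M) : Set ℕ :=
  {p : ℕ | p.Prime ∧ p ≠ 2 ∧ (∀ i, ∃ p' : ℕ, p'.Prime ∧ (p' : ℤ) = p + W * (u i).valMinAbs) ∧
    ∃ q : ℕ, q.Prime ∧ q ≠ 2 ∧ p ≠ q ∧ p + q = m + W * (x₀ + s).val ∧
      ∀ j, ∃ q' : ℕ, q'.Prime ∧ (q' : ℤ) = q + W * (t j).valMinAbs}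

theorem twoSides_le {k M : ℕ} (m W : ℕ) (x₀ s : ZMod M) (u t : Fin k → ZMod M) :
    (twoSides m W x₀ s u t).ncard ≤ (oddPairs m W x₀ s u t).ncard + 3 := by
  set n := m + W * (x₀ + s).val with hn
  have hsub : twoSides m W x₀ s u t ⊆ oddPairs m W x₀ s u t ∪ ({2, n - 2, n / 2} : Finset ℕ) := by
    rintro p ⟨hp, hu, q, hq, hpq, ht⟩
    by_cases h1 : p = 2
    · right; simp [h1]
    by_cases h2 : q = 2
    · right
      have : p = n - 2 := by omega
      simp [this]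
    by_cases h3 : p = q
    · right
      have : p = n / 2 := by omega
      simp [this]
    · left
      exact ⟨hp, h1, hu, q, hq, h2, h3, hpq, ht⟩
  have hfin : (oddPairs m W x₀ s u t).Finite := by
    refine (Set.finite_Iic n).subset ?_
    rintro p ⟨-, -, -, q, -, -, -, hpq, -⟩
    show p ≤ n
    omega
  calc (twoSides m W x₀ s u t).ncard ≤
      (oddPairs m W x₀ s u t ∪ (({2, n - 2, n / 2} : Finset ℕ) : Set ℕ)).ncard :=
        Set.ncard_le_ncard hsub (hfin.union (Finset.finite_toSet _))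
    _ ≤ (oddPairs m W x₀ s u t).ncard + (({2, n - 2, n / 2} : Finset ℕ) : Set ℕ).ncard :=
        Set.ncard_union_le _ _
    _ ≤ _ := by
        rw [Set.ncard_coe_finset]
        exact Nat.add_le_add_left card_le_three _

/-- room for three exceptions -/
theorem room (C : ℕ) : ∀ᶠ m : ℕ in atTop,
    (m : ℝ) / (Real.log m) ^ (C + 1) + 3 ≤ (m : ℝ) / (Real.log m) ^ C := by
  have h1 : Tendsto (fun N : ℕ => Real.log (N : ℝ)) atTop atTop :=
    Real.tendsto_log_atTop.comp tendsto_natCast_atTop_atTop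
  have h2 : Tendsto (fun m : ℕ => (m : ℝ) / (Real.log m) ^ (C + 1)) atTop atTop := by
    have h3 : Tendsto (fun x : ℝ => x / (Real.log x) ^ (C + 1)) atTop atTop := by
      have h4 : (fun x : ℝ => (Real.log x) ^ (C + 1)) =o[atTop] fun x : ℝ => x :=
        Real.isLittleO_pow_log_id_atTop (n := C + 1)
      have h5 : Tendsto (fun x : ℝ => (Real.log x) ^ (C + 1) / x) atTop (𝓝[>] 0) := by
        refine tendsto_nhdsWithin_iff.2 ⟨h4.tendsto_div_nhds_zero, ?_⟩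
        filter_upwards [eventually_gt_atTop 1] with x hx
        have : 0 < Real.log x := Real.log_pos hx
        show (0 : ℝ) < _
        positivity
      have h6 := h5.inv_tendsto_nhdsGT_zero
      refine h6.congr fun x => ?_
      simp [Pi.inv_apply, inv_div]
    exact h3.comp tendsto_natCast_atTop_atTop
  filter_upwards [h1.eventually_ge_atTop 2, h2.eventually_ge_atTop 3] with m hm1 hm2
  have e : (m : ℝ) / (Real.log m) ^ C = Real.log m * ((m : ℝ) / (Real.log m) ^ (C + 1)) := by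
    rw [pow_succ]
    field_simp
  rw [e]
  nlinarith

open Classical in
theorem goldFinal (k : ℕ) (η : ℝ) (hη : 0 < η) :
    ∃ (W r C X₀ : ℕ) (ρ b : ℝ), 0 < W ∧ 0 < ρ ∧ 0 < b ∧ ∀ X : ℕ, X₀ ≤ X →
      ∀ᶠ m : ℕ in atTop, Even m →
      ((1 - η) * ((X / 100 : ℕ) : ℝ) ≤ ({h : ℕ | 1 ≤ h ∧ h ≤ X / 100 ∧
        (m : ℝ) / (Real.log m) ^ C ≤
          ({p : ℕ | p ≤ 2 * m ∧ p.Prime ∧ (p + W * h).Prime}.ncard : ℝ)}.ncard : ℝ)) ∨
      ∃ (Γ : Finset (ZMod (2 * X + 1))) (x₀ : ZMod (2 * X + 1)), Γ.card ≤ r ∧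
        b * X ≤ ((bohrMod Γ ρ).ncard : ℝ) ∧
        (1 - η) * ((bohrMod Γ ρ).ncard : ℝ) ^ (2 * k + 1) ≤
          ({x : ZMod (2 * X + 1) × (Fin k → ZMod (2 * X + 1)) × (Fin k → ZMod (2 * X + 1)) |
            x.1 ∈ bohrMod Γ ρ ∧ (∀ i, x.2.1 i ∈ bohrMod Γ ρ) ∧ (∀ j, x.2.2 j ∈ bohrMod Γ ρ) ∧
            (m : ℝ) / (Real.log m) ^ C ≤
              ((oddPairs m W x₀ x.1 x.2.1 x.2.2).ncard : ℝ)}.ncard : ℝ) := by
  obtain ⟨W, r, C, X₀, ρ, b, hW, hρ, hb, h⟩ := gold k η hη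
  refine ⟨W, r, C + 1, X₀, ρ, b, hW, hρ, hb, fun X hX => ?_⟩
  filter_upwards [h X hX, room C] with m hm hroom hev
  rcases hm hev with h1 | ⟨Γ, x₀, h1, h2, h3⟩
  · left
    refine h1.trans ?_
    rw [Nat.cast_le]
    refine Set.ncard_le_ncard ?_ ((Set.finite_Iic (X / 100)).subset fun h hh => hh.2.1)
    rintro x ⟨h2, h3, h4⟩
    refine ⟨h2, h3, ?_⟩
    have h5 : (m : ℝ) / (Real.log m) ^ C ≤
        ({p : ℕ | p ≤ 2 * m ∧ p.Prime ∧ (p + W * x).Prime}.ncard : ℝ) := h4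
    linarith
  · right
    have hB : bohrMod Γ ρ = ((bohr Γ ρ : Finset (ZMod (2 * X + 1))) : Set (ZMod (2 * X + 1))) := by
      ext x
      rw [mem_coe, mem_bohr]
      exact Iff.rfl
    refine ⟨Γ, x₀, h1, ?_, ?_⟩
    · rw [hB, Set.ncard_coe_finset]
      refine le_trans ?_ h2
      push_cast
      have : (0 : ℝ) ≤ X := Nat.cast_nonneg X
      nlinarith
    · have hc : (bohrMod Γ ρ).ncard = (bohr Γ ρ).card := by rw [hB, Set.ncard_coe_finset]
      rw [hc]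
      refine h3.trans ?_
      rw [Nat.cast_le, ← Set.ncard_coe_finset]
      refine Set.ncard_le_ncard ?_ (Set.toFinite _)
      rintro ⟨s, u, t⟩ hx
      obtain ⟨h4, h5⟩ := mem_filter.1 (mem_coe.1 hx)
      obtain ⟨h6, h7⟩ := mem_product.1 h4
      obtain ⟨h8, h9⟩ := mem_product.1 h7
      rw [Fintype.mem_piFinset] at h8 h9
      rw [hB]
      refine ⟨h6, h8, h9, ?_⟩
      have h10 := twoSides_le m W x₀ s u t
      have h11 : ((twoSides m W x₀ s u t).ncard : ℝ) ≤ (oddPairs m W x₀ s u t).ncard + 3 := by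
        exact_mod_cast h10
      have h12 : (m : ℝ) / (Real.log m) ^ C ≤ ((twoSides m W x₀ s u t).ncard : ℝ) := h5
      show (m : ℝ) / (Real.log m) ^ (C + 1) ≤ ((oddPairs m W x₀ s u t).ncard : ℝ)
      linarith

end Pool.Agent.V11161.BG
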